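import Pool.Agent.Lib.MP_305fdd_al.F2.ChApi
import Pool.Agent.Lib.MP_305fdd_al.F2.PF.Defs

/-!
# MP_305fdd_al, F_2 project, section UL (ultralimits of real compatible valuations)

`U` is an ultrafilter on `I`, `v i` (`i : I`) are real compatible valuations, normalised on the generators
`t j`: `|v i (t j)| ≤ 1`, with equality for one `j`.  `V` is their germ, with values in `Filter.Germ U ℝ`.
`s_X2`, `s_X5` etc. are proved in `ChMain.lean` (`t_X2 : S_X2`, ...) and may be used.
-/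

set_option autoImplicit false

namespace Pool.Agent.F2UL

open MvPolynomial Pool.Agent.F2Ch Pool.Agent.F2PF Filter Topology

section defs
variable {k K I : Type} [Field k] [Field K] [Algebra k K] {n : ℕ}

/-- the germ of the family `v i` -/
def gm (U : Ultrafilter I) (v : I → K → ℝ) (f : K) : Germ (U : Filter I) ℝ :=
  ((fun i => v i f : I → ℝ) : Germ (U : Filter I) ℝ)

/-- a compatible real valuation which is `≥ 0` on `k[t]` and not trivial is positive at `t j0` -/
def HR (k : Type) (p : ℕ) {K : Type} [Field k] [Field K] [Algebra k K] {n : ℕ} (φ : K → K)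
    (t : Fin n → K) (j0 : Fin n) : Prop :=
  ∀ v : K → ℝ, InZ k p φ v → (∃ f, v f ≠ 0) →
    (∀ q : MvPolynomial (Fin n) k, aeval t q ≠ 0 → 0 ≤ v (aeval t q)) → 0 < v (t j0)

/-- the family `v i` is compatible and normalised on the `t j` -/
structure Nrm (k : Type) (p : ℕ) {K I : Type} [Field k] [Field K] [Algebra k K] {n : ℕ}
    (φ : K → K) (t : Fin n → K) (v : I → K → ℝ) : Prop where
  inz : ∀ i, InZ k p φ (v i)
  le : ∀ i j, |v i (t j)| ≤ 1
  one : ∀ i, ∃ j, |v i (t j)| = 1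

/-- `m` is the limit of the `v i` along `U` -/
structure IsLim (k : Type) (p : ℕ) {K I : Type} [Field k] [Field K] [Algebra k K] {n : ℕ}
    (φ : K → K) (t : Fin n → K) (U : Ultrafilter I) (v : I → K → ℝ) (m : K → ℝ) : Prop where
  inz : InZ k p φ m
  tend : ∀ f, Tendsto (fun i => v i f) (U : Filter I) (𝓝 (m f))
  one : ∃ j, |m (t j)| = 1

/-- The valuations `v i` run, along `U`, on a line of a chart of rank two towards their limit `m`.  `c` is the weight
of `m`, `b` is the direction; `y s` is the valuation of weight `c + s b`. -/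
structure Run (k : Type) (p : ℕ) {K κ I : Type} [Field k] [Field K] [Algebra k K] [Field κ]
    [Algebra k κ] {n : ℕ} (φ : K → K) (t : Fin n → K) (U : Ultrafilter I) (v : I → K → ℝ)
    (m : K → ℝ) (x : Fin 2 → K) (ex : K → Fin 2 → ℤ) (ac : K → κ) (φb : κ → κ)
    (N : Set (Fin 2 → ℤ)) (L : K → AddMonoidAlgebra κ (Fin 2 → ℤ)) (b : Fin 2 → ℝ) (s0 : ℝ)
    (y : ℝ → K → ℝ) (τ : I → ℝ) : Prop where
  chart : Chart k p φ t (gm U v) x ex ac φb N L
  det : m (x 0) * b 1 - m (x 1) * b 0 ≠ 0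
  pos : 0 < s0
  zero : y 0 = m
  minz : ∀ q : MvPolynomial (Fin n) k, aeval t q ≠ 0 →
    IsMinW (fun j => m (x j)) (L (aeval t q)) (m (aeval t q))
  good : ∀ s, 0 < s → s < s0 → Good N (fun j => m (x j) + s * b j)
  onch : ∀ s, 0 < s → s < s0 → OnCh k p φ t L (fun j => m (x j) + s * b j) (y s)
  xv : ∀ s, 0 < s → s < s0 → ∀ j, y s (x j) = m (x j) + s * b j
  tau : Tendsto τ (U : Filter I) (𝓝[>] 0)
  run : ∀ᶠ i in (U : Filter I), 0 < τ i ∧ τ i < s0 ∧ Pr (y (τ i)) (v i)

end defs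

/-- [F2UL lim] (about 150 lines) THE LIMIT EXISTS.  (Uses `t_X2`, `t_X5`.)
Proof. `V = gm U v` is compatible (`S_X5`); let `Chart .. V x ex ac φb N L` be a chart, rank `r` (`S_X2`).  For `f ≠ 0`, `V f = wt (V ∘ x) (ex f)` (`vb.gen`), i.e. (germs) `∀ᶠ i in U, v i f = ∑ j, ex f j • v i (x j)`;
and `∀ᶠ i, 0 < v i (x j)` (`vb.pos`).  `r ≠ 0`: some `j` has `|v i (t j)| = 1` for `U`-almost all `i` (finitely many `j`, `U` is an ultrafilter: `Ultrafilter.eventually_exists_iff` or `Ultrafilter.finite_sUnion_mem_iff`), so `V (t j) ≠ 0`.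
Put `lam i = sup_j |v i (x j)|` (`Finset.sup'`), positive for almost all `i`.  The numbers `v i (x j) / lam i` are in `[0,1]` for almost all `i`; let `c j` be their limits along `U` (compactness: `IsCompact.ultrafilter_le_nhds`), some `c j = 1` (again finitely many `j`).
`m' f := ∑ j, ex f j • c j` for `f ≠ 0`, `m' 0 = 0`; then `v i f / lam i → m' f` for all `f`.  All conditions of `InZ` (`IsV`, `Triv`, `Compat`) pass to the limit.  `m'` is not trivial (`m' (x j) = c j = 1`).
CLAIM: there is `C` with `∀ᶠ i, lam i ≤ C`.  Otherwise `lam i → ∞` along `U` (ultrafilter); then `m' (t j) = lim v i (t j) / lam i = 0` for all `j` (`|v i (t j)| ≤ 1`); for a polynomial `q` with `aeval t q ≠ 0`: `v i (aeval t q) ≥ - deg q` (ultrametric inequality over the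
monomials, `v i (c) = 0`, `v i (monomial) ≥ - deg`), so `m' (aeval t q) ≥ 0`.  `HR` gives `0 < m' (t j0) = 0`, a contradiction.
So `lam i → l ∈ [0, C]` along `U`, and `v i f = (v i f / lam i) * lam i → m f := m' f * l`.  For the `j` with `|v i (t j)| = 1` almost always: `|m (t j)| = 1` (so `l > 0`).  `InZ` for `m`: limits again (or `m = l m'`). -/
def S_lim : Prop :=
  ∀ (p : ℕ) [Fact p.Prime] (k K I : Type) [Field k] [CharP k p] [PerfectRing k p] [Field K]
    [Algebra k K] (n : ℕ) (t : Fin n → K), FracGen k t → ∀ (d : ℕ) (b : Fin (p ^ d) → K)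
    (ρ0 : Fin (p ^ d) → K → K), IsPB p b ρ0 → ∀ φ : K → K, IsPinv p φ → φ 1 = 1 →
    ∀ j0 : Fin n, HR k p φ t j0 → ∀ (U : Ultrafilter I) (v : I → K → ℝ), Nrm k p φ t v →
    ∃ m : K → ℝ, IsLim k p φ t U v m

/-- [F2UL one] (about 100 lines) RANK ONE: almost all `v i` are proportional to the limit.  (Uses `t_X5`.)
Proof. By `S_X5` for almost all `i`: `Good N (fun j => v i (x j))` and `OnCh .. (fun j => v i (x j)) (v i)`, and `0 < v i (x 0)` (germ positivity, `vb.pos`).  Let `S` be the set of these `i` (in `U`) and `i ∈ S`, `a i = v i (x 0) > 0`.  For `f = aeval t q ≠ 0`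
the support of `L f` is finite and nonempty (`IsMinW` at `i`) and `v i f` is the minimum of the `m 0 • a i`, `m` in the support, i.e. `a i * e f` with `e f` the least `m 0`.  So for `i ∈ S`: `v i f = a i * e f` for all `0 ≠ f ∈ k[t]`, hence `v i f = a i * e f` for all
`f ≠ 0` in `K` with `e (g / h) := e g - e h` (`FracGen`).  In the limit `m f = A * e f` with `A = lim a i`; `A ≠ 0` as `m` is not trivial (`one`), so `A > 0`, and `v i = (a i / A) m`. -/
def S_one : Prop :=
  ∀ (p : ℕ) [Fact p.Prime] (k K I : Type) [Field k] [CharP k p] [PerfectRing k p] [Field K]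
    [Algebra k K] (n : ℕ) (t : Fin n → K), FracGen k t → ∀ φ : K → K, IsPinv p φ → φ 1 = 1 →
    ∀ (U : Ultrafilter I) (v : I → K → ℝ), Nrm k p φ t v →
    ∀ m : K → ℝ, IsLim k p φ t U v m → ∀ (κ : Type) [Field κ] [Algebra k κ] (x : Fin 1 → K)
      (ex : K → Fin 1 → ℤ) (ac : K → κ) (φb : κ → κ) (N : Set (Fin 1 → ℤ))
      (L : K → AddMonoidAlgebra κ (Fin 1 → ℤ)), Chart k p φ t (gm U v) x ex ac φb N L →
      ∀ᶠ i in (U : Filter I), Pr m (v i)

/-- [F2UL zero] (about 40 lines) RANK ZERO is impossible.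
Proof. `Fin 0`: `V f = wt _ (ex f) = 0` for `f ≠ 0` (`vb.gen`), so for each `j` (`t j ≠ 0` or not) `v i (t j) = 0` for almost all `i`, hence for almost all `i` for all `j` (finitely many), against `Nrm.one`. -/
def S_zero : Prop :=
  ∀ (p : ℕ) [Fact p.Prime] (k K I : Type) [Field k] [CharP k p] [PerfectRing k p] [Field K]
    [Algebra k K] (n : ℕ) (t : Fin n → K), ∀ φ : K → K,
    ∀ (U : Ultrafilter I) (v : I → K → ℝ), Nrm k p φ t v →
    ∀ (κ : Type) [Field κ] [Algebra k κ] (x : Fin 0 → K)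
      (ex : K → Fin 0 → ℤ) (ac : K → κ) (φb : κ → κ) (N : Set (Fin 0 → ℤ))
      (L : K → AddMonoidAlgebra κ (Fin 0 → ℤ)), ¬ Chart k p φ t (gm U v) x ex ac φb N L

/-- [F2UL three] (about 150 lines) RANK THREE is impossible.  (Uses `t_X3`, `t_X5`.)
Proof. Suppose that it is not true that almost all `v i` are proportional to `m`.  `S` = the set of the `i` with `OnCh .. (u i) (v i)`, `u i j = v i (x j)`, and `Good N (u i)`; `S ∈ U` (`S_X5`).  There are `i0, i1 ∈ S` with `u i0`, `u i1` linearly independent over `ℝ`: otherwise all `u i`, `i ∈ S`, are multiples of one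
`u i0` (`u i ≠ 0` because otherwise `v i` is trivial by `OnCh.min`, against `Nrm.one`); positive multiples, because `v i (x j) > 0` for almost all `i` (shrink `S`); then (`OnCh.min`, `FracGen`) `v i = r i * v i0`, `r i > 0`, and by normalisation (`Nrm`: `max_j |v i (t j)| = 1`) `r i = 1`, so `v i = v i0 = m` for `i ∈ S`: a contradiction.
For `i ∈ S` apply `S_X3` with `ι = Fin 3`, the points `i0, i1, i` and the element from the hypothesis `hz` for the finite set `{i0, i1, i}`: there is `0 ≠ n_i : Fin 3 → ℤ` with `wt (u i0) n_i = wt (u i1) n_i = wt (u i) n_i = 0`.  The real vectors orthogonal to `u i0`, `u i1` form a line (cross product in `ℝ^3`), so `n_i` is a real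
multiple of `n := n_{i0}` and `wt (u i) n = 0` for all `i ∈ S`.  So `wt (gm U v ∘ x) n = 0` (germs), and `vb.indep` gives `n = 0`, a contradiction. -/
def S_three : Prop :=
  ∀ (p : ℕ) [Fact p.Prime] (k K I : Type) [Field k] [CharP k p] [PerfectRing k p] [Field K]
    [Algebra k K] (n : ℕ) (t : Fin n → K), FracGen k t → ∀ φ : K → K, IsPinv p φ → φ 1 = 1 →
    ∀ (U : Ultrafilter I) (v : I → K → ℝ), Nrm k p φ t v →
    ∀ m : K → ℝ, IsLim k p φ t U v m →
    (∀ S : Finset I, ∃ (q : MvPolynomial (Fin n) k) (M : ℕ) (c : k),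
      (∀ i ∈ S, Ge (v i) 0 (aeval t q)) ∧ φ^[M] (aeval t q) = 0 ∧ c ≠ 0 ∧
        φ^[M] ((aeval t q) ^ 2) = algebraMap k K c) →
    ∀ (κ : Type) [Field κ] [Algebra k κ] (x : Fin 3 → K)
      (ex : K → Fin 3 → ℤ) (ac : K → κ) (φb : κ → κ) (N : Set (Fin 3 → ℤ))
      (L : K → AddMonoidAlgebra κ (Fin 3 → ℤ)), (∀ c : κ, ∃ c', c' ^ p = c) →
      Chart k p φ t (gm U v) x ex ac φb N L →
      ∀ᶠ i in (U : Filter I), Pr m (v i)

/-- [F2UL two] (about 200 lines) RANK TWO.  (Uses `t_X5`.)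
Proof. `a j = m (x j)`; `a j ≥ 0` (limit of positive numbers).  `a ≠ 0`: otherwise `v i f = ∑ ex f j • v i (x j) → 0` for all `f` (the equality holds for almost all `i`, `vb.gen`), against `IsLim.one`.
Put `b = (- a 1, a 0)` or `b = (a 1, - a 0)`, the sign to be chosen.  `det`: `± (a 0 ^ 2 + a 1 ^ 2) ≠ 0`.  For almost all `i` the weight `u i = (v i (x 0), v i (x 1))` is on the chart (`S_X5`); write `u i = α i • (a + τ i • b)`, i.e. `α i = (u i · a) / |a|^2`, `τ i = (u i · b) / (α i |a|^2)`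
(`b ⟂ a`, `|b| = |a|`).  `u i → a`, so `α i → 1`, `τ i → 0`.  If `τ i = 0` for almost all `i` then `u i = α i a` and, as in the case of rank one (`OnCh.min` for `u i`; the minimal weights scale), `v i` is proportional to `v i'` for any two such `i, i'`, hence to the limit `m`: this is the first alternative.
Otherwise `τ i ≠ 0` for almost all `i` with a constant sign; choose the sign of `b` such that `τ i > 0` for almost all `i`.
`s0`: for `n ∈ N` (finite) `0 < wt (gm ∘ x) n` (`Chart.good`), so `0 < wt (u i) n = α i (wt a n + τ i wt b n)` for almost all `i`; with `τ i → 0+`: `wt a n ≥ 0`, and `wt a n = 0` implies `wt b n > 0`; so there is `s_n > 0` with `0 < wt a n + s wt b n` for `0 < s < s_n`; `s0 = min s_n` (or `1` if `N` is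
empty).  For `0 < s < s0` let `y s` be the valuation from `Chart.cell` at `a + s b` (`Γ' = ℝ`), `y 0 = m`, and `y s = m` for all other `s`.  `minz`: `IsMinW (u i) (L f) (v i f)` for almost all `i` (`OnCh.min`), and minima of finitely many continuous functions pass to the limit `u i → a`, `v i f → m f`
(choose, by finiteness, one exponent which attains the minimum for almost all `i`).
`run`: for almost all `i`, `0 < τ i < s0`, and `OnCh .. (u i) (v i)`, `OnCh .. (a + τ i b) (y (τ i))`: minimal weights scale by `α i > 0`, so `v i f = α i * y (τ i) f` for `0 ≠ f ∈ k[t]` and by `FracGen` for all `f` (both are valuations; `0` clear). -/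
def S_two : Prop :=
  ∀ (p : ℕ) [Fact p.Prime] (k K I : Type) [Field k] [CharP k p] [PerfectRing k p] [Field K]
    [Algebra k K] (n : ℕ) (t : Fin n → K), FracGen k t → ∀ φ : K → K, IsPinv p φ → φ 1 = 1 →
    ∀ (U : Ultrafilter I) (v : I → K → ℝ), Nrm k p φ t v →
    ∀ m : K → ℝ, IsLim k p φ t U v m → ∀ (κ : Type) [Field κ] [Algebra k κ] (x : Fin 2 → K)
      (ex : K → Fin 2 → ℤ) (ac : K → κ) (φb : κ → κ) (N : Set (Fin 2 → ℤ))
      (L : K → AddMonoidAlgebra κ (Fin 2 → ℤ)), Chart k p φ t (gm U v) x ex ac φb N L →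
      (∀ᶠ i in (U : Filter I), Pr m (v i)) ∨
      ∃ (b : Fin 2 → ℝ) (s0 : ℝ) (y : ℝ → K → ℝ) (τ : I → ℝ),
        Run k p φ t U v m x ex ac φb N L b s0 y τ

/-- [F2UL fin] (about 100 lines) Uses all of the above and `t_X2`. THE TRICHOTOMY.
Proof. `S_X2` for the germ: a chart with `r + s = 3`, `trdeg κ = s`.  `r = 0`: `S_zero`.  `r = 1`: `S_one`.  `r = 2`: `S_two`.  `r = 3`: then `s = 0`, and `IsPB p b' ρ'` with `b' : Fin (p ^ 0) → κ` says that every `c ∈ κ` is `a ^ p * b' 0`; `1 = a0 ^ p * b' 0`, so `b' 0 = (a0⁻¹) ^ p` and every `c` is a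
`p`-th power; `S_three`.  (`subst` for `r`.) -/
def S_fin : Prop :=
  ∀ (p : ℕ) [Fact p.Prime] (k K I : Type) [Field k] [CharP k p] [PerfectRing k p] [Field K]
    [Algebra k K] (n : ℕ) (t : Fin n → K), FracGen k t → ∀ (b0 : Fin (p ^ 3) → K)
    (ρ0 : Fin (p ^ 3) → K → K), IsPB p b0 ρ0 → ∀ φ : K → K, IsPinv p φ → φ 1 = 1 →
    ∀ (U : Ultrafilter I) (v : I → K → ℝ), Nrm k p φ t v →
    ∀ m : K → ℝ, IsLim k p φ t U v m →
    (∀ S : Finset I, ∃ (q : MvPolynomial (Fin n) k) (M : ℕ) (c : k),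
      (∀ i ∈ S, Ge (v i) 0 (aeval t q)) ∧ φ^[M] (aeval t q) = 0 ∧ c ≠ 0 ∧
        φ^[M] ((aeval t q) ^ 2) = algebraMap k K c) →
      (∀ᶠ i in (U : Filter I), Pr m (v i)) ∨
      ∃ (κ : Type) (_ : Field κ) (_ : Algebra k κ) (x : Fin 2 → K)
      (ex : K → Fin 2 → ℤ) (ac : K → κ) (φb : κ → κ) (N : Set (Fin 2 → ℤ))
      (L : K → AddMonoidAlgebra κ (Fin 2 → ℤ)) (b : Fin 2 → ℝ) (s0 : ℝ) (y : ℝ → K → ℝ)
      (τ : I → ℝ), Run k p φ t U v m x ex ac φb N L b s0 y τ

/-- [F2UL line] (about 120 lines) A run gives a line in the sense of section PF on the half open interval `[0, s0)`, with the limit at `0`.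
Proof. `M f` = the image of the support of `L f` under `n ↦ (wt a n, wt b n)`, `a j = m (x j)` (for `f ∈ B`).  `wt (a + s b) n = wt a n + s * wt b n`.  `isv`: `OnCh.inz.isv` resp. `IsLim.inz.isv`.  `ne`, `le`, `ex`: `OnCh.min` for `s > 0` and `Run.minz` for `s = 0`.
`nd`: `x1 = x 0`, `x2 = x 1`, the vectors `(a 0, b 0)`, `(a 1, b 1)`; `Run.det`, `Run.xv`, `Run.zero`. -/
def S_line : Prop :=
  ∀ (p : ℕ) [Fact p.Prime] (k K I : Type) [Field k] [CharP k p] [PerfectRing k p] [Field K]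
    [Algebra k K] (n : ℕ) (t : Fin n → K) (φ : K → K)
    (U : Ultrafilter I) (v : I → K → ℝ) (m : K → ℝ), IsLim k p φ t U v m →
    ∀ (κ : Type) [Field κ] [Algebra k κ] (x : Fin 2 → K)
      (ex : K → Fin 2 → ℤ) (ac : K → κ) (φb : κ → κ) (N : Set (Fin 2 → ℤ))
      (L : K → AddMonoidAlgebra κ (Fin 2 → ℤ)) (b : Fin 2 → ℝ) (s0 : ℝ) (y : ℝ → K → ℝ)
      (τ : I → ℝ), Run k p φ t U v m x ex ac φb N L b s0 y τ →
      ∃ M : K → Finset (ℝ × ℝ), Line {f : K | ∃ q : MvPolynomial (Fin n) k, aeval t q = f}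
        (Set.Ico 0 s0) y M

/-- [F2UL irr] (about 100 lines) If the limit `m` has rational rank two it is an interior point: the line can be continued beyond `m`.
Proof. `a j = m (x j)` is good: for `n ∈ N`, `wt a n ≥ 0` by continuity from `Run.good` (`s → 0+`), and `≠ 0` by the hypothesis (`n ≠ 0`, since `0 < wt (a + s b) n` for small `s`).  So there is `s1 > 0` with `Good N (a + s b)` for `|s| < s1`, `s1 ≤ s0` (`N` is finite).  For `s ≤ 0` take
the valuation of `Chart.cell` (`z s`), for `s = 0` it is `m` because `m` and `z 0` have the same values on `k[t]` (`minz`), so on `K` (`FracGen`).  `OnCh` for `m`: `IsLim.inz` and `Run.minz`.  The line as in `S_line`. -/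
def S_irr : Prop :=
  ∀ (p : ℕ) [Fact p.Prime] (k K I : Type) [Field k] [CharP k p] [PerfectRing k p] [Field K]
    [Algebra k K] (n : ℕ) (t : Fin n → K), FracGen k t → ∀ (φ : K → K)
    (U : Ultrafilter I) (v : I → K → ℝ) (m : K → ℝ), IsLim k p φ t U v m →
    ∀ (κ : Type) [Field κ] [Algebra k κ] (x : Fin 2 → K)
      (ex : K → Fin 2 → ℤ) (ac : K → κ) (φb : κ → κ) (N : Set (Fin 2 → ℤ))
      (L : K → AddMonoidAlgebra κ (Fin 2 → ℤ)) (b : Fin 2 → ℝ) (s0 : ℝ) (y : ℝ → K → ℝ)
      (τ : I → ℝ), Run k p φ t U v m x ex ac φb N L b s0 y τ →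
      (∀ e : Fin 2 → ℤ, wt (fun j => m (x j)) e = 0 → e = 0) →
      ∃ (s1 : ℝ) (z : ℝ → K → ℝ) (M : K → Finset (ℝ × ℝ)), 0 < s1 ∧ s1 ≤ s0 ∧
        (∀ s, 0 ≤ s → s < s1 → z s = y s) ∧
        (∀ s, -s1 < s → s < s1 → Good N (fun j => m (x j) + s * b j) ∧
          OnCh k p φ t L (fun j => m (x j) + s * b j) (z s) ∧
          ∀ j, z s (x j) = m (x j) + s * b j) ∧
        Line {f : K | ∃ q : MvPolynomial (Fin n) k, aeval t q = f} (Set.Ioo (-s1) s1) z M

/-- [F2UL flag] (about 120 lines) If the limit `m` has rational rank one, the direction of the run is a flag at `m`.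
Proof. `a j = m (x j)`.  `(a, b)` is good in the lexicographic order: for `n ∈ N` we have `wt a n + s wt b n > 0` for `0 < s < s0`, so `wt a n ≥ 0`, and if `wt a n = 0` then `wt b n > 0`.  `Chart.cell` with `Γ' = ℝ ×ₗ ℝ` gives `W` with `W (x j) = toLex (a j, b j)` and `OnCh`.
First component: for `0 ≠ f ∈ k[t]`, `W f` is the lexicographic minimum of the `(wt a n, wt b n)`, whose first component is the minimum of the `wt a n`, i.e. `m f` (`minz`); both first component and `m` are multiplicative, so equality on `K` (`FracGen`).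
Second component not `0` on `{m = 0}`: by hypothesis there is `e ≠ 0` with `wt a e = 0`; `f = x 0 ^ (e 0) * x 1 ^ (e 1)` has `m f = 0` and second component `wt b e ≠ 0` (`det`: `wt a e = wt b e = 0` would give `e = 0`).
`near`: as in `S_X6`: for `0 ≠ f ∈ k[t]` the lexicographic minimum is attained at an exponent which is minimal for `a + s b` for all small `s > 0` (finitely many exponents). -/
def S_flag : Prop :=
  ∀ (p : ℕ) [Fact p.Prime] (k K I : Type) [Field k] [CharP k p] [PerfectRing k p] [Field K]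
    [Algebra k K] (n : ℕ) (t : Fin n → K), FracGen k t → ∀ (φ : K → K)
    (U : Ultrafilter I) (v : I → K → ℝ) (m : K → ℝ), IsLim k p φ t U v m →
    ∀ (κ : Type) [Field κ] [Algebra k κ] (x : Fin 2 → K)
      (ex : K → Fin 2 → ℤ) (ac : K → κ) (φb : κ → κ) (N : Set (Fin 2 → ℤ))
      (L : K → AddMonoidAlgebra κ (Fin 2 → ℤ)) (b : Fin 2 → ℝ) (s0 : ℝ) (y : ℝ → K → ℝ)
      (τ : I → ℝ), Run k p φ t U v m x ex ac φb N L b s0 y τ →
      (∃ e : Fin 2 → ℤ, wt (fun j => m (x j)) e = 0 ∧ e ≠ 0) →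
      ∃ W : K → ℝ ×ₗ ℝ, InZ k p φ W ∧ (∀ f, (ofLex (W f)).1 = m f) ∧
        (∃ f, f ≠ 0 ∧ m f = 0 ∧ (ofLex (W f)).2 ≠ 0) ∧
        OnCh k p φ t L (fun j => (toLex (m (x j), b j) : ℝ ×ₗ ℝ)) W ∧
        (∀ q : MvPolynomial (Fin n) k, aeval t q ≠ 0 → ∀ s, 0 < s → s < s0 →
          y s (aeval t q) ≤ m (aeval t q) + s * (ofLex (W (aeval t q))).2) ∧
        ∀ f, f ≠ 0 → ∃ s1 > 0, ∀ s, 0 < s → s < s1 → y s f = m f + s * (ofLex (W f)).2

end Pool.Agent.F2UL
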