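import Pool.Agent.Lib.MP_305fdd_al.F2.UL.Stm
import Pool.Agent.Lib.MP_305fdd_al.F2.ChMain

/-!
# MP_305fdd_al, F_2 project, section UL, piece fin: the trichotomy
-/

set_option autoImplicit false

namespace Pool.Agent.F2UL

open MvPolynomial Pool.Agent.F2Ch Pool.Agent.F2PF Filter Topology

private theorem p_fin_perf {p : ℕ} {κ : Type} [Field κ] (b' : Fin (p ^ 0) → κ)
    (ρ' : Fin (p ^ 0) → κ → κ) (h : IsPB p b' ρ') (c : κ) : ∃ c', c' ^ p = c := by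
  haveI : Subsingleton (Fin (p ^ 0)) := by
    rw [pow_zero]
    infer_instance
  let i0 : Fin (p ^ 0) := ⟨0, by rw [pow_zero]; exact one_pos⟩
  have h1 := h.repr 1
  have hc := h.repr c
  rw [Fintype.sum_subsingleton _ i0] at h1 hc
  have h2 : (ρ' i0 1) ^ p ≠ 0 := by
    intro h0
    rw [h0, zero_mul] at h1
    exact zero_ne_one h1
  refine ⟨ρ' i0 c * (ρ' i0 1)⁻¹, ?_⟩
  have h3 : b' i0 = ((ρ' i0 1) ^ p)⁻¹ := eq_inv_of_mul_eq_one_right h1
  rw [mul_pow, inv_pow, ← h3]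
  exact hc

theorem p_fin (h_zero : S_zero) (h_one : S_one) (h_two : S_two) (h_three : S_three) : S_fin := by
  intro p _ k K I _ _ _ _ _ n t hfr b0 ρ0 hPB φ hpinv hφ1 U v hnrm m hlim hz
  obtain ⟨hinz, -⟩ := t_X5 p k K I U φ v hnrm.inz
  obtain ⟨r, s, κ, _, _, x, ex, ac, φb, N, L, hch, hrs, -, -, b', ρ', hPB'⟩ :=
    t_X2 p k K (Germ (U : Filter I) ℝ) n t hfr 3 b0 ρ0 hPB φ hpinv hφ1 _ hinz
  have hr : r = 0 ∨ r = 1 ∨ r = 2 ∨ r = 3 := by omega
  rcases hr with rfl | rfl | rfl | rfl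
  · exact absurd hch (h_zero p k K I n t φ U v hnrm κ x ex ac φb N L)
  · exact Or.inl (h_one p k K I n t hfr φ hpinv hφ1 U v hnrm m hlim κ x ex ac φb N L hch)
  · rcases h_two p k K I n t hfr φ hpinv hφ1 U v hnrm m hlim κ x ex ac φb N L hch with
      h | ⟨b, s0, y, τ, hrun⟩
    · exact Or.inl h
    · exact Or.inr ⟨κ, _, _, x, ex, ac, φb, N, L, b, s0, y, τ, hrun⟩
  · have hs : s = 0 := by omega
    subst hs
    exact Or.inl (h_three p k K I n t hfr φ hpinv hφ1 U v hnrm m hlim hz κ x ex ac φb N L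
      (p_fin_perf b' ρ' hPB') hch)

end Pool.Agent.F2UL
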