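import Pool.Agent.Lib.MP_305fdd_al.F2.UL.Hlp

/-!
# MP_305fdd_al, F_2 project, section UL: the limit exists
-/

set_option autoImplicit false

namespace Pool.Agent.F2UL

open MvPolynomial Pool.Agent.F2Ch Pool.Agent.F2PF Filter Topology

section
variable {k K I : Type} [Field k] [Field K] [Algebra k K]

/-- limits along an ultrafilter exist in compact sets -/
private theorem lim_cpt (U : Ultrafilter I) (g : I → ℝ) (a b : ℝ)
    (h : ∀ᶠ i in (U : Filter I), a ≤ g i ∧ g i ≤ b) :
    ∃ c, Tendsto g (U : Filter I) (𝓝 c) := by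
  have h1 : ((U.map g : Ultrafilter ℝ) : Filter ℝ) ≤ 𝓟 (Set.Icc a b) := by
    rw [le_principal_iff]
    exact h
  obtain ⟨c, _, hc⟩ := isCompact_Icc.ultrafilter_le_nhds (U.map g) h1
  exact ⟨c, hc⟩

/-- compatibility passes to the limit -/
private theorem lim_inz {p : ℕ} {φ : K → K} (U : Ultrafilter I) (v : I → K → ℝ) (m : K → ℝ)
    (hv : ∀ᶠ i in (U : Filter I), InZ k p φ (v i))
    (hm : ∀ f, Tendsto (fun i => v i f) (U : Filter I) (𝓝 (m f))) : InZ k p φ m := by
  refine ⟨⟨?_, fun x y hx hy => ?_, fun x y hx hy hxy => ?_⟩, fun c => ?_, fun f hf => ?_⟩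
  · refine tendsto_nhds_unique (hm 0) (tendsto_const_nhds.congr' ?_)
    filter_upwards [hv] with i hi
    exact hi.isv.zero.symm
  · refine tendsto_nhds_unique (hm (x * y)) (((hm x).add (hm y)).congr' ?_)
    filter_upwards [hv] with i hi
    exact (hi.isv.mul x y hx hy).symm
  · refine le_of_tendsto_of_tendsto ((hm x).min (hm y)) (hm (x + y)) ?_
    filter_upwards [hv] with i hi
    exact hi.isv.add x y hx hy hxy
  · refine tendsto_nhds_unique (hm (algebraMap k K c)) (tendsto_const_nhds.congr' ?_)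
    filter_upwards [hv] with i hi
    exact (hi.triv c).symm
  · refine le_of_tendsto_of_tendsto (hm f) ((hm (φ f)).const_smul p) ?_
    filter_upwards [hv] with i hi
    exact hi.compat f hf

/-- rescaling -/
private theorem lim_sc {p : ℕ} {φ : K → K} {v : K → ℝ} (hv : InZ k p φ v) {c : ℝ} (hc : 0 ≤ c) :
    InZ k p φ (fun f => v f * c) := by
  refine ⟨⟨?_, fun x y hx hy => ?_, fun x y hx hy hxy => ?_⟩, fun a => ?_, fun f hf => ?_⟩
  · show v 0 * c = 0
    rw [hv.isv.zero, zero_mul]
  · show v (x * y) * c = v x * c + v y * c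
    rw [hv.isv.mul x y hx hy, add_mul]
  · show min (v x * c) (v y * c) ≤ v (x + y) * c
    rw [← min_mul_of_nonneg _ _ hc]
    exact mul_le_mul_of_nonneg_right (hv.isv.add x y hx hy hxy) hc
  · show v (algebraMap k K a) * c = 0
    rw [hv.triv a, zero_mul]
  · show v f * c ≤ p • (v (φ f) * c)
    rw [← smul_mul_assoc]
    exact mul_le_mul_of_nonneg_right (hv.compat f hf) hc

private theorem lim_ge_mul {v : K → ℝ} (hv : IsV v) {a b : ℝ} {x y : K} (hx : Ge v a x)
    (hy : Ge v b y) : Ge v (a + b) (x * y) := by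
  by_cases hx0 : x = 0
  · exact Or.inl (by rw [hx0, zero_mul])
  by_cases hy0 : y = 0
  · exact Or.inl (by rw [hy0, mul_zero])
  have h1 := hx.resolve_left hx0
  have h2 := hy.resolve_left hy0
  exact Or.inr (by rw [hv.mul x y hx0 hy0]; exact add_le_add h1 h2)

private theorem lim_ge_add {v : K → ℝ} (hv : IsV v) {a : ℝ} {x y : K} (hx : Ge v a x)
    (hy : Ge v a y) : Ge v a (x + y) := by
  by_cases hxy : x + y = 0
  · exact Or.inl hxy
  by_cases hx0 : x = 0
  · rw [hx0, zero_add]
    exact hy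
  by_cases hy0 : y = 0
  · rw [hy0, add_zero]
    exact hx
  have h1 := hx.resolve_left hx0
  have h2 := hy.resolve_left hy0
  exact Or.inr ((le_min h1 h2).trans (hv.add x y hx0 hy0 hxy))

/-- polynomials have values bounded below -/
private theorem lim_deg {n : ℕ} (t : Fin n → K) (q : MvPolynomial (Fin n) k) :
    ∃ D : ℝ, ∀ v : K → ℝ, IsV v → Triv k v → (∀ j, |v (t j)| ≤ 1) → Ge v (-D) (aeval t q) := by
  induction q using MvPolynomial.induction_on with
  | C a =>
    refine ⟨0, fun v _ h _ => Or.inr ?_⟩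
    rw [aeval_C, h a, neg_zero]
  | add f g hf hg =>
    obtain ⟨D, hD⟩ := hf
    obtain ⟨E, hE⟩ := hg
    refine ⟨max D E, fun v h1 h2 h3 => ?_⟩
    rw [map_add]
    refine lim_ge_add h1 ?_ ?_
    · exact (hD v h1 h2 h3).imp id fun h => (neg_le_neg (le_max_left _ _)).trans h
    · exact (hE v h1 h2 h3).imp id fun h => (neg_le_neg (le_max_right _ _)).trans h
  | mul_X f j hf =>
    obtain ⟨D, hD⟩ := hf
    refine ⟨D + 1, fun v h1 h2 h3 => ?_⟩
    rw [map_mul, aeval_X, neg_add]
    exact lim_ge_mul h1 (hD v h1 h2 h3) (Or.inr (neg_le_of_abs_le (h3 j)))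

end

theorem p_lim : S_lim := by
  intro p _ k K I _ _ _ _ _ n t ht d b ρ0 hPB φ hφ h1 j0 hHR U v hN
  have hV : InZ k p φ (gm U v) := (t_X5 p k K I U φ v hN.inz).1
  obtain ⟨r, s, κ, iF, iA, x, ex, ac, φb, N, L, hC, -⟩ :=
    t_X2 p k K (Germ (U : Filter I) ℝ) n t ht d b ρ0 hPB φ hφ h1 (gm U v) hV
  have hgen := hl_gen hC.vb
  have hpos := hl_pos hC.vb
  -- one coordinate has absolute value one
  obtain ⟨j1, hj1⟩ : ∃ j, ∀ᶠ i in (U : Filter I), |v i (t j)| = 1 := by
    rw [← Ultrafilter.eventually_exists_iff]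
    exact Eventually.of_forall hN.one
  have htj : t j1 ≠ 0 := by
    intro h0
    obtain ⟨i, hi⟩ := hj1.exists
    rw [h0, (hN.inz i).isv.zero, abs_zero] at hi
    exact zero_ne_one hi
  have hr : 0 < r := by
    rcases Nat.eq_zero_or_pos r with h0 | h0
    · exfalso
      subst h0
      obtain ⟨i, hi, h2⟩ := (hj1.and (hgen _ htj)).exists
      rw [h2] at hi
      unfold wt at hi
      rw [Finset.univ_eq_empty, Finset.sum_empty, abs_zero] at hi
      exact zero_ne_one hi
    · exact h0
  -- the scale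
  let lam : I → ℝ := fun i => ∑ j, v i (x j)
  have hlam : ∀ᶠ i in (U : Filter I), 0 < lam i := by
    filter_upwards [hpos] with i hi
    exact Finset.sum_pos (fun j _ => hi j) ⟨⟨0, hr⟩, Finset.mem_univ _⟩
  have hc : ∀ j, ∃ c, Tendsto (fun i => v i (x j) / lam i) (U : Filter I) (𝓝 c) := by
    intro j
    refine lim_cpt U _ 0 1 ?_
    filter_upwards [hpos, hlam] with i hi hl
    refine ⟨div_nonneg (hi j).le hl.le, (div_le_one hl).2 ?_⟩
    exact Finset.single_le_sum (f := fun j => v i (x j)) (fun j _ => (hi j).le) (Finset.mem_univ j)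
  choose c hc using hc
  have hsum : ∑ j, c j = 1 := by
    have h2 : Tendsto (fun i => ∑ j, v i (x j) / lam i) (U : Filter I) (𝓝 (∑ j, c j)) :=
      tendsto_finsetSum _ fun j _ => hc j
    refine tendsto_nhds_unique h2 (tendsto_const_nhds.congr' ?_)
    filter_upwards [hlam] with i hl
    rw [← Finset.sum_div]
    exact (div_self hl.ne').symm
  -- the normalised limit
  have hm' : ∀ f, ∃ a, Tendsto (fun i => v i f * (lam i)⁻¹) (U : Filter I) (𝓝 a) := by
    intro f
    by_cases hf : f = 0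
    · refine ⟨0, tendsto_const_nhds.congr fun i => ?_⟩
      rw [hf, (hN.inz i).isv.zero, zero_mul]
    · refine ⟨∑ j, (ex f j : ℝ) * c j, ?_⟩
      have h2 : Tendsto (fun i => ∑ j, (ex f j : ℝ) * (v i (x j) / lam i)) (U : Filter I)
          (𝓝 (∑ j, (ex f j : ℝ) * c j)) :=
        tendsto_finsetSum _ fun j _ => (hc j).const_mul _
      refine h2.congr' ?_
      filter_upwards [hgen f hf] with i hi
      rw [hi]
      unfold wt
      rw [Finset.sum_mul]
      refine Finset.sum_congr rfl fun j _ => ?_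
      rw [zsmul_eq_mul, div_eq_mul_inv, mul_assoc]
  choose m' hm' using hm'
  have hsc : ∀ᶠ i in (U : Filter I), InZ k p φ (fun f => v i f * (lam i)⁻¹) := by
    filter_upwards [hlam] with i hl
    exact lim_sc (hN.inz i) (inv_nonneg.2 hl.le)
  have hz' : InZ k p φ m' := lim_inz U _ m' hsc hm'
  have hcj : ∀ j, m' (x j) = c j := fun j => tendsto_nhds_unique (hm' (x j)) (hc j)
  have hnt : ∃ f, m' f ≠ 0 := by
    by_contra h2
    push Not at h2
    have h3 : ∑ j, c j = 0 := Finset.sum_eq_zero fun j _ => by rw [← hcj, h2]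
    rw [hsum] at h3
    exact one_ne_zero h3
  -- the scale is bounded
  obtain ⟨C, hC0⟩ : ∃ C, ∀ᶠ i in (U : Filter I), lam i ≤ C := by
    by_contra h2
    push Not at h2
    have hinf : Tendsto lam (U : Filter I) atTop := by
      rw [tendsto_atTop]
      intro a
      filter_upwards [h2 a] with i hi
      exact hi.le
    have hinv : Tendsto (fun i => (lam i)⁻¹) (U : Filter I) (𝓝 0) := hinf.inv_tendsto_atTop
    have h0 : m' (t j0) = 0 := by
      refine tendsto_nhds_unique (hm' (t j0)) ?_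
      refine squeeze_zero_norm' ?_ hinv
      filter_upwards [hlam] with i hl
      rw [norm_mul, Real.norm_eq_abs, Real.norm_eq_abs, abs_of_pos (inv_pos.2 hl)]
      exact mul_le_of_le_one_left (inv_pos.2 hl).le (hN.le i j0)
    have h3 := hHR m' hz' hnt fun q hq => by
      obtain ⟨D, hD⟩ := lim_deg (k := k) t q
      have h4 : Tendsto (fun i => (-D) * (lam i)⁻¹) (U : Filter I) (𝓝 0) := by
        have := hinv.const_mul (-D)
        rwa [mul_zero] at this
      refine le_of_tendsto_of_tendsto h4 (hm' (aeval t q)) ?_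
      filter_upwards [hlam] with i hl
      have h5 := (hD (v i) (hN.inz i).isv (hN.inz i).triv (hN.le i)).resolve_left hq
      exact mul_le_mul_of_nonneg_right h5 (inv_pos.2 hl).le
    rw [h0] at h3
    exact lt_irrefl _ h3
  obtain ⟨l, hl⟩ := lim_cpt U lam 0 C (by
    filter_upwards [hlam, hC0] with i h2 h3
    exact ⟨h2.le, h3⟩)
  have hfin : ∀ f, Tendsto (fun i => v i f) (U : Filter I) (𝓝 (m' f * l)) := by
    intro f
    refine ((hm' f).mul hl).congr' ?_
    filter_upwards [hlam] with i h2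
    rw [mul_assoc, inv_mul_cancel₀ h2.ne', mul_one]
  refine ⟨fun f => m' f * l, lim_inz U v _ (Eventually.of_forall hN.inz) hfin, hfin, j1, ?_⟩
  refine tendsto_nhds_unique (hfin (t j1)).abs (tendsto_const_nhds.congr' ?_)
  filter_upwards [hj1] with i hi
  exact hi.symm

end Pool.Agent.F2UL
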