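import Pool.Agent.Lib.MP_305fdd_al.F2.UL.Hlp

/-!
# MP_305fdd_al, F_2 project, section UL: rank one
-/

set_option autoImplicit false

namespace Pool.Agent.F2UL

open MvPolynomial Pool.Agent.F2Ch Pool.Agent.F2PF Filter Topology

theorem p_one : S_one := by
  intro p _ k K I _ _ _ _ _ n t ht φ hφ h1 U v hN m hm κ _ _ x ex ac φb N L hC
  have h5 := (t_X5 p k K I U φ v hN.inz).2 κ n t 1 x ex ac φb N L hC
  have hpos := hl_pos hC.vb
  obtain ⟨i0, h6, h7⟩ := (h5.and hpos).exists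
  refine hl_pr hm (v i0) ?_
  filter_upwards [h5, hpos] with i h8 h9
  refine ⟨v i (x 0) / v i0 (x 0), div_pos (h9 0) (h7 0), ?_⟩
  refine hl_prop ht (div_pos (h9 0) (h7 0)) ?_ h6.2 h8.2
  intro j
  rw [Subsingleton.elim j 0, div_mul_cancel₀ _ (h7 0).ne']

end Pool.Agent.F2UL
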