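import Pool.Agent.Lib.MP_305fdd_al.F2.UL.Hlp

/-!
# MP_305fdd_al, F_2 project, section UL: rank three is impossible
-/

set_option autoImplicit false

namespace Pool.Agent.F2UL

open MvPolynomial Pool.Agent.F2Ch Pool.Agent.F2PF Filter Topology

private theorem three_wt (u : Fin 3 → ℝ) (e : Fin 3 → ℤ) :
    wt u e = (e 0 : ℝ) * u 0 + (e 1 : ℝ) * u 1 + (e 2 : ℝ) * u 2 := by
  unfold wt
  rw [Fin.sum_univ_three, zsmul_eq_mul, zsmul_eq_mul, zsmul_eq_mul]

/-- the cross product -/
private def cp (a b : Fin 3 → ℝ) : Fin 3 → ℝ :=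
  ![a 1 * b 2 - a 2 * b 1, a 2 * b 0 - a 0 * b 2, a 0 * b 1 - a 1 * b 0]

private def dp (a b : Fin 3 → ℝ) : ℝ := a 0 * b 0 + a 1 * b 1 + a 2 * b 2

private theorem three_ne {a : Fin 3 → ℝ} (h : a ≠ 0) : ∃ j, a j ≠ 0 := by
  by_contra hc
  push Not at hc
  exact h (funext hc)

/-- vectors orthogonal to `a` and `b` are parallel to the cross product -/
private theorem three_par (a b n : Fin 3 → ℝ) (ha : dp n a = 0) (hb : dp n b = 0) (i j : Fin 3) :
    n i * cp a b j = n j * cp a b i := by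
  have key : ∀ i j : Fin 3, i < j → n i * cp a b j = n j * cp a b i := by
    intro i j hij
    unfold dp at ha hb
    fin_cases i <;> fin_cases j <;> simp at hij
    · show n 0 * (a 2 * b 0 - a 0 * b 2) = n 1 * (a 1 * b 2 - a 2 * b 1)
      linear_combination a 2 * hb - b 2 * ha
    · show n 0 * (a 0 * b 1 - a 1 * b 0) = n 2 * (a 1 * b 2 - a 2 * b 1)
      linear_combination b 1 * ha - a 1 * hb
    · show n 1 * (a 0 * b 1 - a 1 * b 0) = n 2 * (a 2 * b 0 - a 0 * b 2)
      linear_combination a 0 * hb - b 0 * ha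
  rcases lt_trichotomy i j with h | h | h
  · exact key i j h
  · rw [h]
  · exact (key j i h).symm

/-- if `n'` is parallel to `w`, `n' ≠ 0` and `n' ⟂ u` then `w ⟂ u` -/
private theorem three_tr (n' w u : Fin 3 → ℝ) (h0 : n' ≠ 0) (h : ∀ i j, n' i * w j = n' j * w i)
    (hu : dp n' u = 0) : dp w u = 0 := by
  obtain ⟨j, hj⟩ := three_ne h0
  apply mul_left_cancel₀ hj
  unfold dp at hu ⊢
  have e0 := h j 0
  have e1 := h j 1
  have e2 := h j 2
  rw [mul_zero]
  linear_combination u 0 * e0 + u 1 * e1 + u 2 * e2 + w j * hu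

theorem p_three : S_three := by
  intro p _ k K I _ _ _ _ _ n t ht φ hφ h1 U v hN m hm hz κ _ _ x ex ac φb N L hperf hC
  have h5 := (t_X5 p k K I U φ v hN.inz).2 κ n t 3 x ex ac φb N L hC
  have hpos := hl_pos hC.vb
  have hS := h5.and hpos
  obtain ⟨i0, h6, h7⟩ := hS.exists
  by_cases hcase : ∀ᶠ i in (U : Filter I), cp (fun j => v i0 (x j)) (fun j => v i (x j)) = 0
  · refine hl_pr hm (v i0) ?_
    filter_upwards [hS, hcase] with i h8 h9
    obtain ⟨h8, h10⟩ := h8
    refine ⟨v i (x 0) / v i0 (x 0), div_pos (h10 0) (h7 0), ?_⟩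
    refine hl_prop ht (div_pos (h10 0) (h7 0)) ?_ h6.2 h8.2
    have e1 : v i0 (x 2) * v i (x 0) - v i0 (x 0) * v i (x 2) = 0 := congrFun h9 1
    have e2 : v i0 (x 0) * v i (x 1) - v i0 (x 1) * v i (x 0) = 0 := congrFun h9 2
    intro j
    rw [div_mul_eq_mul_div, eq_div_iff (h7 0).ne']
    fin_cases j
    · show v i (x 0) * v i0 (x 0) = v i (x 0) * v i0 (x 0)
      rfl
    · show v i (x 1) * v i0 (x 0) = v i (x 0) * v i0 (x 1)
      linear_combination e2
    · show v i (x 2) * v i0 (x 0) = v i (x 0) * v i0 (x 2)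
      linear_combination -e1
  · exfalso
    rw [← Ultrafilter.eventually_not] at hcase
    obtain ⟨i1, ⟨h8, h9⟩, h10⟩ := (hS.and hcase).exists
    have key : ∀ i, (Good N (fun j => v i (x j)) ∧
        OnCh k p φ t L (fun j => v i (x j)) (v i)) → ∃ e : Fin 3 → ℤ, e ≠ 0 ∧
        dp (fun j => (e j : ℝ)) (fun j => v i0 (x j)) = 0 ∧
        dp (fun j => (e j : ℝ)) (fun j => v i1 (x j)) = 0 ∧
        dp (fun j => (e j : ℝ)) (fun j => v i (x j)) = 0 := by
      intro i hi
      classical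
      obtain ⟨q, M, c, hq1, hq2, hq3, hq4⟩ := hz {i0, i1, i}
      let s : Fin 3 → I := ![i0, i1, i]
      have hs : ∀ a, s a ∈ ({i0, i1, i} : Finset I) ∧ (Good N (fun j => v (s a) (x j)) ∧
          OnCh k p φ t L (fun j => v (s a) (x j)) (v (s a))) := by
        intro a
        fin_cases a
        · exact ⟨by simp [s], h6⟩
        · exact ⟨by simp [s], h8⟩
        · exact ⟨by simp [s], hi⟩
      obtain ⟨e, he, hwt⟩ := t_X3 p k K (Germ (U : Filter I) ℝ) n t ht φ hφ h1 κ (gm U v)
        ((t_X5 p k K I U φ v hN.inz).1) 3 x ex ac φb N L hC hperf ℝ (Fin 3)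
        (fun a j => v (s a) (x j)) (fun a => v (s a)) (fun a => (hs a).2.1) (fun a => (hs a).2.2)
        q M c (fun a => hq1 _ (hs a).1) hq2 hq3 hq4
      refine ⟨e, he, ?_, ?_, ?_⟩
      · have := hwt 0
        rw [three_wt] at this
        exact this
      · have := hwt 1
        rw [three_wt] at this
        exact this
      · have := hwt 2
        rw [three_wt] at this
        exact this
    obtain ⟨e0, he0, hA, hB, -⟩ := key i0 h6
    have hcast : ∀ e : Fin 3 → ℤ, e ≠ 0 → (fun j => (e j : ℝ)) ≠ 0 := by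
      intro e he h
      apply he
      funext j
      exact Int.cast_eq_zero.1 (congrFun h j)
    have hperp : ∀ i, (Good N (fun j => v i (x j)) ∧
        OnCh k p φ t L (fun j => v i (x j)) (v i)) →
        dp (fun j => (e0 j : ℝ)) (fun j => v i (x j)) = 0 := by
      intro i hi
      obtain ⟨e, he, hA', hB', hC'⟩ := key i hi
      have h11 := three_tr _ _ _ (hcast e he) (three_par _ _ _ hA' hB') hC'
      refine three_tr _ _ _ h10 ?_ h11
      intro a b
      rw [mul_comm, mul_comm (cp _ _ b)]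
      exact three_par _ _ _ hA hB b a
    have hwt0 : wt (fun j => gm U v (x j)) e0 = 0 := by
      rw [hl_gm]
      refine Germ.coe_eq.2 ?_
      filter_upwards [h5] with i hi
      rw [three_wt]
      exact hperp i hi
    exact he0 (hC.vb.indep e0 hwt0)

end Pool.Agent.F2UL
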