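import Pool.Agent.Lib.MP_305fdd_al.F2.UL.Stm
import Pool.Agent.Lib.MP_305fdd_al.F2.ChMain

/-!
# MP_305fdd_al, F_2 project, section UL: [F2UL two]
-/

set_option autoImplicit false

namespace Pool.Agent.F2UL

open MvPolynomial Pool.Agent.F2Ch Pool.Agent.F2PF Filter Topology

section

variable {k K I : Type} [Field k] [Field K] [Algebra k K] {n : ℕ}

/-- two valuations which are proportional on `k[t]` are proportional -/
private theorem two_ext {t : Fin n → K} (hFG : FracGen k t) {w w' : K → ℝ} (hw : IsV w)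
    (hw' : IsV w') {c : ℝ} (h : ∀ q : MvPolynomial (Fin n) k, aeval t q ≠ 0 →
      w (aeval t q) = c * w' (aeval t q)) (f : K) : w f = c * w' f := by
  by_cases hf : f = 0
  · rw [hf, hw.zero, hw'.zero, mul_zero]
  obtain ⟨a, b, hb, hab⟩ := hFG f
  have ha : aeval t a ≠ 0 := by
    rw [← hab]
    exact mul_ne_zero hf hb
  have h1 := hw.mul f _ hf hb
  have h2 := hw'.mul f _ hf hb
  rw [hab] at h1 h2
  rw [h a ha, h b hb, h2] at h1
  linarith

private theorem two_wt_smul {r : ℕ} {u u' : Fin r → ℝ} {α : ℝ} (h : ∀ j, u j = α * u' j)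
    (e : Fin r → ℤ) : wt u e = α * wt u' e := by
  unfold wt
  rw [Finset.mul_sum]
  refine Finset.sum_congr rfl fun j _ => ?_
  rw [h j, zsmul_eq_mul, zsmul_eq_mul]
  ring

/-- minimal weights scale -/
private theorem two_min {κ : Type} [Field κ] {r : ℕ} {u u' : Fin r → ℝ} {α : ℝ} (hα : 0 < α)
    (h : ∀ j, u j = α * u' j) {P : AddMonoidAlgebra κ (Fin r → ℤ)} {c c' : ℝ}
    (hc : IsMinW u P c) (hc' : IsMinW u' P c') : c = α * c' := by
  obtain ⟨h1, e, he, h2⟩ := hc
  obtain ⟨h3, e', he', h4⟩ := hc'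
  apply le_antisymm
  · have := h1 e' he'
    rw [two_wt_smul h, ← h4] at this
    exact this
  · rw [h2, two_wt_smul h]
    exact mul_le_mul_of_nonneg_left (h3 e he) hα.le

private theorem two_wt_add (a b : Fin 2 → ℝ) (s : ℝ) (e : Fin 2 → ℤ) :
    wt (fun j => a j + s * b j) e = wt a e + s * wt b e := by
  unfold wt
  rw [Fin.sum_univ_two, Fin.sum_univ_two, Fin.sum_univ_two]
  simp only [zsmul_eq_mul]
  ring

private theorem two_tend_wt {U : Ultrafilter I} {u : I → Fin 2 → ℝ} {a : Fin 2 → ℝ}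
    (h : ∀ j, Tendsto (fun i => u i j) (U : Filter I) (𝓝 (a j))) (e : Fin 2 → ℤ) :
    Tendsto (fun i => wt (u i) e) (U : Filter I) (𝓝 (wt a e)) := by
  unfold wt
  refine tendsto_finsetSum _ fun j _ => ?_
  simp only [zsmul_eq_mul]
  exact (h j).const_mul _

/-- the second alternative -/
private theorem two_run {p : ℕ} {t : Fin n → K} (hFG : FracGen k t) {φ : K → K}
    {U : Ultrafilter I} {v : I → K → ℝ} {m : K → ℝ} (hm : IsLim k p φ t U v m) {κ : Type} [Field κ]
    [Algebra k κ] {x : Fin 2 → K} {ex : K → Fin 2 → ℤ} {ac : K → κ} {φb : κ → κ}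
    {N : Set (Fin 2 → ℤ)} {L : K → AddMonoidAlgebra κ (Fin 2 → ℤ)}
    (hc : Chart k p φ t (gm U v) x ex ac φb N L)
    (h5 : ∀ᶠ i in (U : Filter I), Good N (fun j => v i (x j)) ∧
      OnCh k p φ t L (fun j => v i (x j)) (v i))
    (hminz : ∀ q : MvPolynomial (Fin n) k, aeval t q ≠ 0 →
      IsMinW (fun j => m (x j)) (L (aeval t q)) (m (aeval t q)))
    (hA : 0 < m (x 0) ^ 2 + m (x 1) ^ 2) (σ : ℝ) (hσ : σ ^ 2 = 1)
    (hpos : ∀ᶠ i in (U : Filter I), 0 < σ * (m (x 0) * v i (x 1) - m (x 1) * v i (x 0))) :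
    ∃ (b : Fin 2 → ℝ) (s0 : ℝ) (y : ℝ → K → ℝ) (τ : I → ℝ),
      Run k p φ t U v m x ex ac φb N L b s0 y τ := by
  classical
  set a0 := m (x 0) with ha0
  set a1 := m (x 1) with ha1
  set A := a0 ^ 2 + a1 ^ 2 with hAd
  set b : Fin 2 → ℝ := ![-(σ * a1), σ * a0] with hb
  have hb0 : b 0 = -(σ * a1) := rfl
  have hb1 : b 1 = σ * a0 := rfl
  set α : I → ℝ := fun i => (v i (x 0) * a0 + v i (x 1) * a1) / A with hα
  set β : I → ℝ := fun i => (σ * (a0 * v i (x 1) - a1 * v i (x 0))) / A with hβ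
  set τ : I → ℝ := fun i => β i / α i with hτ
  have ht0 := hm.tend (x 0)
  have ht1 := hm.tend (x 1)
  have hαt : Tendsto α (U : Filter I) (𝓝 1) := by
    have h1 : Tendsto α (U : Filter I) (𝓝 ((a0 * a0 + a1 * a1) / A)) :=
      ((ht0.mul_const a0).add (ht1.mul_const a1)).div_const A
    have h2 : (a0 * a0 + a1 * a1) / A = 1 := by
      rw [div_eq_one_iff_eq hA.ne']
      ring
    rwa [h2] at h1
  have hβt : Tendsto β (U : Filter I) (𝓝 0) := by
    have h1 : Tendsto β (U : Filter I) (𝓝 ((σ * (a0 * a1 - a1 * a0)) / A)) :=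
      (((ht1.const_mul a0).sub (ht0.const_mul a1)).const_mul σ).div_const A
    have h2 : (σ * (a0 * a1 - a1 * a0)) / A = 0 := by
      have : σ * (a0 * a1 - a1 * a0) = 0 := by ring
      rw [this, zero_div]
    rwa [h2] at h1
  have hτt : Tendsto τ (U : Filter I) (𝓝 0) := by
    have h1 := hβt.div hαt one_ne_zero
    rwa [zero_div] at h1
  have hαp : ∀ᶠ i in (U : Filter I), 0 < α i := hαt.eventually_const_lt one_pos
  have hτp : ∀ᶠ i in (U : Filter I), 0 < τ i := by
    filter_upwards [hαp, hpos] with i h1 h2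
    exact div_pos (div_pos h2 hA) h1
  have hu : ∀ i, 0 < α i → ∀ j, v i (x j) = α i * ((fun j => m (x j) + τ i * b j) j) := by
    intro i hi j
    have e1 : α i * τ i = β i := by
      show α i * (β i / α i) = β i
      field_simp
    have e2 : ∀ c d : ℝ, α i * (c + τ i * d) = α i * c + β i * d := by
      intro c d
      rw [← e1]
      ring
    show v i (x j) = α i * (m (x j) + τ i * b j)
    rw [e2]
    fin_cases j
    · show v i (x 0) = (v i (x 0) * a0 + v i (x 1) * a1) / A * a0 +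
        (σ * (a0 * v i (x 1) - a1 * v i (x 0))) / A * -(σ * a1)
      have : (v i (x 0) * a0 + v i (x 1) * a1) / A * a0 +
        (σ * (a0 * v i (x 1) - a1 * v i (x 0))) / A * -(σ * a1) =
        ((v i (x 0) * a0 + v i (x 1) * a1) * a0 -
          σ ^ 2 * ((a0 * v i (x 1) - a1 * v i (x 0)) * a1)) / A := by
        field_simp
        ring
      rw [this, hσ, eq_div_iff hA.ne', hAd]
      ring
    · show v i (x 1) = (v i (x 0) * a0 + v i (x 1) * a1) / A * a1 +
        (σ * (a0 * v i (x 1) - a1 * v i (x 0))) / A * (σ * a0)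
      have : (v i (x 0) * a0 + v i (x 1) * a1) / A * a1 +
        (σ * (a0 * v i (x 1) - a1 * v i (x 0))) / A * (σ * a0) =
        ((v i (x 0) * a0 + v i (x 1) * a1) * a1 +
          σ ^ 2 * ((a0 * v i (x 1) - a1 * v i (x 0)) * a0)) / A := by
        field_simp
      rw [this, hσ, eq_div_iff hA.ne', hAd]
      ring
  -- the interval
  have hN : ∀ e ∈ N, ∀ᶠ s in 𝓝[>] (0 : ℝ), 0 < wt (fun j => m (x j)) e + s * wt b e := by
    intro e he
    have h1 : ∀ᶠ i in (U : Filter I), 0 < wt (fun j => m (x j)) e + τ i * wt b e := by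
      filter_upwards [h5, hαp] with i h2 h3
      have h4 := h2.1 e he
      rw [two_wt_smul (hu i h3)] at h4
      have h6 := (mul_pos_iff_of_pos_left h3).mp h4
      rw [← two_wt_add]
      exact h6
    have h2 : Tendsto (fun i => wt (fun j => m (x j)) e + τ i * wt b e) (U : Filter I)
        (𝓝 (wt (fun j => m (x j)) e)) := by
      have := (hτt.mul_const (wt b e)).const_add (wt (fun j => m (x j)) e)
      rwa [zero_mul, add_zero] at this
    have h3 : 0 ≤ wt (fun j => m (x j)) e :=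
      ge_of_tendsto h2 (h1.mono fun i hi => hi.le)
    rcases h3.eq_or_lt with h4 | h4
    · obtain ⟨i, h6, h7⟩ := (h1.and hτp).exists
      rw [← h4, zero_add] at h6
      have h8 : 0 < wt b e := (mul_pos_iff_of_pos_left h7).mp h6
      filter_upwards [self_mem_nhdsWithin] with s hs
      rw [← h4, zero_add]
      exact mul_pos hs h8
    · have h6 : Tendsto (fun s : ℝ => wt (fun j => m (x j)) e + s * wt b e) (𝓝[>] 0)
          (𝓝 (wt (fun j => m (x j)) e + 0 * wt b e)) :=
        ((continuous_const.add (continuous_id.mul continuous_const)).tendsto 0).mono_left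
          nhdsWithin_le_nhds
      rw [zero_mul, add_zero] at h6
      exact h6.eventually_const_lt h4
  obtain ⟨s0, hs0, hs⟩ : ∃ s0 : ℝ, 0 < s0 ∧ ∀ s, 0 < s → s < s0 → ∀ e ∈ N,
      0 < wt (fun j => m (x j)) e + s * wt b e := by
    have h1 : ∀ᶠ s in 𝓝[>] (0 : ℝ), ∀ e ∈ N, 0 < wt (fun j => m (x j)) e + s * wt b e :=
      (eventually_all_finite hc.fin).mpr hN
    obtain ⟨s0, hs0, hsub⟩ := mem_nhdsGT_iff_exists_Ioo_subset.mp h1
    exact ⟨s0, hs0, fun s h2 h3 => hsub ⟨h2, h3⟩⟩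
  have hgood : ∀ s, 0 < s → s < s0 → Good N (fun j => m (x j) + s * b j) := by
    intro s h1 h2 e he
    rw [two_wt_add]
    exact hs s h1 h2 e he
  have hcell : ∀ s : ℝ, ∃ w : K → ℝ, (0 < s → s < s0 →
      OnCh k p φ t L (fun j => m (x j) + s * b j) w ∧ ∀ j, w (x j) = m (x j) + s * b j) ∧
      (s ≤ 0 → w = m) := by
    intro s
    by_cases h1 : 0 < s ∧ s < s0
    · obtain ⟨w, hw1, hw2⟩ := hc.cell ℝ _ (hgood s h1.1 h1.2)
      exact ⟨w, fun _ _ => ⟨hw1, hw2⟩, fun h => absurd h (not_le.mpr h1.1)⟩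
    · exact ⟨m, fun h2 h3 => absurd ⟨h2, h3⟩ h1, fun _ => rfl⟩
  choose y hy1 hy2 using hcell
  refine ⟨b, s0, y, τ, hc, ?_, hs0, hy2 0 le_rfl, hminz, hgood, fun s h1 h2 => (hy1 s h1 h2).1,
    fun s h1 h2 => (hy1 s h1 h2).2, ?_, ?_⟩
  · rw [hb0, hb1, ← ha0, ← ha1]
    have e1 : a0 * (σ * a0) - a1 * -(σ * a1) = σ * A := by
      rw [hAd]; ring
    rw [e1]
    refine mul_ne_zero ?_ hA.ne'
    rintro rfl
    norm_num at hσ
  · exact tendsto_nhdsWithin_iff.mpr ⟨hτt, hτp⟩
  · filter_upwards [hτp, hτt.eventually_lt_const hs0, hαp, h5] with i h1 h2 h3 h4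
    refine ⟨h1, h2, α i, h3, ?_⟩
    refine two_ext hFG h4.2.inz.isv (hy1 (τ i) h1 h2).1.inz.isv fun q hq => ?_
    exact two_min h3 (hu i h3) (h4.2.min q hq) ((hy1 (τ i) h1 h2).1.min q hq)

end

theorem p_two : S_two := by
  classical
  intro p _ k K I _ _ _ _ _ n t hFG φ hφ hφ1 U v hN m hm κ _ _ x ex ac φb N L hc
  have h5 := ((t_X5 p k K I U φ v hN.inz).2 κ n t 2 x ex ac φb N L hc)
  have htend : ∀ j, Tendsto (fun i => v i (x j)) (U : Filter I) (𝓝 (m (x j))) :=
    fun j => hm.tend (x j)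
  -- the values of `m`
  have hmf : ∀ f, f ≠ 0 → m f = wt (fun j => m (x j)) (ex f) := by
    intro f hf
    have h1 : ∀ᶠ i in (U : Filter I), v i f = wt (fun j => v i (x j)) (ex f) := by
      have h2 := hc.vb.gen f hf
      have h3 : wt (fun j => gm U v (x j)) (ex f) =
          (((fun i => wt (fun j => v i (x j)) (ex f) : I → ℝ)) : Germ (U : Filter I) ℝ) := by
        unfold wt
        simp only [Fin.sum_univ_two]
        rfl
      rw [h3] at h2
      exact Filter.Germ.coe_eq.mp h2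
    have h2 := two_tend_wt (u := fun i j => v i (x j)) htend (ex f)
    exact tendsto_nhds_unique_of_eventuallyEq (hm.tend f) h2 h1
  have hA : 0 < m (x 0) ^ 2 + m (x 1) ^ 2 := by
    by_contra h
    have h0 : m (x 0) = 0 := by nlinarith [sq_nonneg (m (x 0)), sq_nonneg (m (x 1))]
    have h1 : m (x 1) = 0 := by nlinarith [sq_nonneg (m (x 0)), sq_nonneg (m (x 1))]
    obtain ⟨j, hj⟩ := hm.one
    have h2 : m (t j) = 0 := by
      by_cases h3 : t j = 0
      · rw [h3]; exact hm.inz.isv.zero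
      · rw [hmf _ h3]
        unfold wt
        rw [Fin.sum_univ_two]
        show ex (t j) 0 • m (x 0) + ex (t j) 1 • m (x 1) = 0
        rw [h0, h1, smul_zero, smul_zero, add_zero]
    rw [h2, abs_zero] at hj
    exact zero_ne_one hj
  have hminz : ∀ q : MvPolynomial (Fin n) k, aeval t q ≠ 0 →
      IsMinW (fun j => m (x j)) (L (aeval t q)) (m (aeval t q)) := by
    intro q hq
    have h1 : ∀ᶠ i in (U : Filter I), IsMinW (fun j => v i (x j)) (L (aeval t q))
        (v i (aeval t q)) := h5.mono fun i hi => hi.2.min q hq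
    refine ⟨fun e he => ?_, ?_⟩
    · exact le_of_tendsto_of_tendsto (hm.tend _) (two_tend_wt (u := fun i j => v i (x j)) htend e)
        (h1.mono fun i hi => hi.1 e he)
    · have h2 : ∀ᶠ i in (U : Filter I), ∃ e ∈ {e | (L (aeval t q)).coeff e ≠ 0},
          v i (aeval t q) = wt (fun j => v i (x j)) e := h1.mono fun i hi => hi.2
      have hfin : {e | (L (aeval t q)).coeff e ≠ 0}.Finite :=
        (L (aeval t q)).coeff.hasFiniteSupport
      obtain ⟨e, he, h3⟩ := (Ultrafilter.eventually_exists_mem_iff hfin).mp h2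
      exact ⟨e, he, tendsto_nhds_unique_of_eventuallyEq (hm.tend _)
        (two_tend_wt (u := fun i j => v i (x j)) htend e) h3⟩
  have htri : (∀ᶠ i in (U : Filter I), m (x 0) * v i (x 1) - m (x 1) * v i (x 0) = 0) ∨
      (∀ᶠ i in (U : Filter I), 0 < m (x 0) * v i (x 1) - m (x 1) * v i (x 0)) ∨
      (∀ᶠ i in (U : Filter I), m (x 0) * v i (x 1) - m (x 1) * v i (x 0) < 0) := by
    rw [← Ultrafilter.eventually_or, ← Ultrafilter.eventually_or]
    refine Eventually.of_forall fun i => ?_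
    rcases lt_trichotomy (m (x 0) * v i (x 1) - m (x 1) * v i (x 0)) 0 with h | h | h
    · exact Or.inr (Or.inr h)
    · exact Or.inl h
    · exact Or.inr (Or.inl h)
  rcases htri with h0 | h0 | h0
  · left
    have hαt : Tendsto (fun i => (v i (x 0) * m (x 0) + v i (x 1) * m (x 1)) /
        (m (x 0) ^ 2 + m (x 1) ^ 2)) (U : Filter I) (𝓝 1) := by
      have h1 := (((htend 0).mul_const (m (x 0))).add ((htend 1).mul_const (m (x 1)))).div_const
        (m (x 0) ^ 2 + m (x 1) ^ 2)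
      have h2 : (m (x 0) * m (x 0) + m (x 1) * m (x 1)) / (m (x 0) ^ 2 + m (x 1) ^ 2) = 1 := by
        rw [div_eq_one_iff_eq hA.ne']
        ring
      rwa [h2] at h1
    filter_upwards [h0, hαt.eventually_const_lt one_pos, h5] with i h1 h2 h3
    refine ⟨_, h2, two_ext hFG h3.2.inz.isv hm.inz.isv fun q hq => ?_⟩
    refine two_min h2 (fun j => ?_) (h3.2.min q hq) (hminz q hq)
    rw [div_mul_eq_mul_div, eq_div_iff hA.ne']
    fin_cases j
    · show v i (x 0) * (m (x 0) ^ 2 + m (x 1) ^ 2) =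
        (v i (x 0) * m (x 0) + v i (x 1) * m (x 1)) * m (x 0)
      linear_combination (-m (x 1)) * h1
    · show v i (x 1) * (m (x 0) ^ 2 + m (x 1) ^ 2) =
        (v i (x 0) * m (x 0) + v i (x 1) * m (x 1)) * m (x 1)
      linear_combination (m (x 0)) * h1
  · right
    refine two_run hFG hm hc h5 hminz hA 1 (by norm_num) (h0.mono fun i hi => ?_)
    rw [one_mul]
    exact hi
  · right
    refine two_run hFG hm hc h5 hminz hA (-1) (by norm_num) (h0.mono fun i hi => ?_)
    linarith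

end Pool.Agent.F2UL
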