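import Pool.Agent.Lib.MP_305fdd_al.F2.UL.Stm

/-!
# MP_305fdd_al, F_2 project, section UL: rank zero is impossible
-/

set_option autoImplicit false

namespace Pool.Agent.F2UL

open MvPolynomial Pool.Agent.F2Ch Pool.Agent.F2PF Filter Topology

theorem p_zero : S_zero := by
  intro p _ k K I _ _ _ _ _ n t φ U v hN κ _ _ x ex ac φb N L hC
  have key : ∀ j, ∀ᶠ i in (U : Filter I), v i (t j) = 0 := by
    intro j
    by_cases h : t j = 0
    · refine Eventually.of_forall fun i => ?_
      rw [h]
      exact (hN.inz i).isv.zero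
    · have h1 := hC.vb.gen (t j) h
      have h2 : wt (fun i => gm U v (x i)) (ex (t j)) = 0 := by
        simp [wt]
      rw [h2] at h1
      have h3 : ((fun i => v i (t j) : I → ℝ) : Germ (U : Filter I) ℝ) =
          ((fun _ => (0 : ℝ) : I → ℝ) : Germ (U : Filter I) ℝ) := h1
      exact Germ.coe_eq.1 h3
  have key2 : ∀ᶠ i in (U : Filter I), ∀ j, v i (t j) = 0 := eventually_all.2 key
  obtain ⟨i, hi⟩ := key2.exists
  obtain ⟨j, hj⟩ := hN.one i
  rw [hi j] at hj
  simp at hj

end Pool.Agent.F2UL
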