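import Pool.Agent.Lib.MP_305fdd_al.F2.UL.Stm
import Pool.Agent.Lib.MP_305fdd_al.F2.ChMain

/-!
# MP_305fdd_al, F_2 project, section UL: common lemmas
-/

set_option autoImplicit false

namespace Pool.Agent.F2UL

open MvPolynomial Pool.Agent.F2Ch Pool.Agent.F2PF Filter Topology

section
variable {k K I : Type} [Field k] [Field K] [Algebra k K]

theorem hl_quot {v : K → ℝ} (hv : IsV v) {f g h : K} (hf : f ≠ 0) (hg : g ≠ 0) (e : f * g = h) :
    v f = v h - v g := by
  rw [← e, hv.mul f g hf hg, add_sub_cancel_right]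

/-- two valuations which are proportional on `k[t]` are proportional -/
theorem hl_ext {n : ℕ} {t : Fin n → K} (ht : FracGen k t) {v w : K → ℝ} (hv : IsV v) (hw : IsV w)
    {r : ℝ} (h : ∀ q : MvPolynomial (Fin n) k, aeval t q ≠ 0 → v (aeval t q) = r * w (aeval t q))
    (f : K) : v f = r * w f := by
  by_cases hf : f = 0
  · rw [hf, hv.zero, hw.zero, mul_zero]
  · obtain ⟨a, b, hb, e⟩ := ht f
    have ha : aeval t a ≠ 0 := by
      rw [← e]
      exact mul_ne_zero hf hb
    rw [hl_quot hv hf hb e, hl_quot hw hf hb e, h a ha, h b hb, mul_sub]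

theorem hl_wt {r : ℕ} (u u' : Fin r → ℝ) (c : ℝ) (h : ∀ j, u' j = c * u j) (m : Fin r → ℤ) :
    wt u' m = c * wt u m := by
  unfold wt
  rw [Finset.mul_sum]
  refine Finset.sum_congr rfl fun j _ => ?_
  rw [h, zsmul_eq_mul, zsmul_eq_mul]
  ring

/-- minimal weights scale -/
theorem hl_scale {κ : Type} [Field κ] {r : ℕ} {u u' : Fin r → ℝ} {c : ℝ} (hc : 0 < c)
    (h : ∀ j, u' j = c * u j) {P : AddMonoidAlgebra κ (Fin r → ℤ)} {a a' : ℝ} (h1 : IsMinW u P a)
    (h2 : IsMinW u' P a') : a' = c * a := by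
  obtain ⟨h3, m, hm, h4⟩ := h1
  obtain ⟨h5, m', hm', h6⟩ := h2
  have h7 := h3 m' hm'
  have h8 := h5 m hm
  rw [hl_wt u u' c h] at h8 h6
  rw [← h4] at h8
  apply le_antisymm h8
  rw [h6]
  exact mul_le_mul_of_nonneg_left h7 hc.le

/-- two valuations on a chart with proportional weights are proportional -/
theorem hl_prop {p : ℕ} {κ : Type} [Field κ] {n r : ℕ} {φ : K → K} {t : Fin n → K}
    (ht : FracGen k t) {L : K → AddMonoidAlgebra κ (Fin r → ℤ)} {u u' : Fin r → ℝ} {v v' : K → ℝ}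
    {c : ℝ} (hc : 0 < c) (h : ∀ j, u' j = c * u j) (h1 : OnCh k p φ t L u v)
    (h2 : OnCh k p φ t L u' v') (f : K) : v' f = c * v f :=
  hl_ext ht h2.inz.isv h1.inz.isv (fun q hq => hl_scale hc h (h1.min q hq) (h2.min q hq)) f

/-- germs of weights -/
theorem hl_gm {r : ℕ} (U : Ultrafilter I) (v : I → K → ℝ) (x : Fin r → K) (e : Fin r → ℤ) :
    wt (fun j => gm U v (x j)) e =
      ((fun i => wt (fun j => v i (x j)) e : I → ℝ) : Germ (U : Filter I) ℝ) := by
  have h1 : (fun i => wt (fun j => v i (x j)) e : I → ℝ) =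
      ∑ j, e j • (fun i => v i (x j) : I → ℝ) := by
    funext i
    unfold wt
    rw [Finset.sum_apply]
    rfl
  rw [h1]
  have h2 := map_sum (Germ.coeAddHom (U : Filter I) : (I → ℝ) →+ Germ (U : Filter I) ℝ)
    (fun j => e j • (fun i => v i (x j) : I → ℝ)) Finset.univ
  refine Eq.trans ?_ h2.symm
  unfold wt
  refine Finset.sum_congr rfl fun j _ => ?_
  rw [map_zsmul]
  rfl

theorem hl_gen {r : ℕ} {U : Ultrafilter I} {v : I → K → ℝ} {x : Fin r → K} {ex : K → Fin r → ℤ}
    (h : IsVB (gm U v) x ex) (f : K) (hf : f ≠ 0) :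
    ∀ᶠ i in (U : Filter I), v i f = wt (fun j => v i (x j)) (ex f) := by
  have h1 := h.gen f hf
  rw [hl_gm] at h1
  exact Germ.coe_eq.1 h1

theorem hl_pos {r : ℕ} {U : Ultrafilter I} {v : I → K → ℝ} {x : Fin r → K} {ex : K → Fin r → ℤ}
    (h : IsVB (gm U v) x ex) : ∀ᶠ i in (U : Filter I), ∀ j, 0 < v i (x j) := by
  rw [eventually_all]
  intro j
  exact Germ.coe_pos.1 (h.pos j)

/-- if almost all `v i` are multiples of `v i0` they are multiples of the limit -/
theorem hl_pr {p n : ℕ} {φ : K → K} {t : Fin n → K} {U : Ultrafilter I} {v : I → K → ℝ}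
    {m : K → ℝ} (hm : IsLim k p φ t U v m) (w : K → ℝ)
    (h : ∀ᶠ i in (U : Filter I), ∃ c : ℝ, 0 < c ∧ ∀ f, v i f = c * w f) :
    ∀ᶠ i in (U : Filter I), Pr m (v i) := by
  obtain ⟨j, hj⟩ := hm.one
  have hmj : m (t j) ≠ 0 := by
    intro h0
    rw [h0, abs_zero] at hj
    exact zero_ne_one hj
  have hw : w (t j) ≠ 0 := by
    intro h0
    apply hmj
    have h1 : Tendsto (fun i => v i (t j)) (U : Filter I) (𝓝 0) := by
      refine tendsto_const_nhds.congr' ?_
      filter_upwards [h] with i hi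
      obtain ⟨c, _, hc⟩ := hi
      rw [hc, h0, mul_zero]
    exact tendsto_nhds_unique (hm.tend (t j)) h1
  have key : ∀ f, m f = (m (t j) / w (t j)) * w f := by
    intro f
    have h1 : Tendsto (fun i => v i f) (U : Filter I) (𝓝 ((m (t j) / w (t j)) * w f)) := by
      refine (((hm.tend (t j)).div_const (w (t j))).mul_const (w f)).congr' ?_
      filter_upwards [h] with i hi
      obtain ⟨c, _, hc⟩ := hi
      rw [hc, hc f, mul_div_cancel_right₀ _ hw]
    exact tendsto_nhds_unique (hm.tend f) h1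
  have hA : 0 < m (t j) / w (t j) := by
    refine lt_of_le_of_ne ?_ (div_ne_zero hmj hw).symm
    refine ge_of_tendsto ((hm.tend (t j)).div_const (w (t j))) ?_
    filter_upwards [h] with i hi
    obtain ⟨c, hc0, hc⟩ := hi
    rw [hc, mul_div_cancel_right₀ _ hw]
    exact hc0.le
  filter_upwards [h] with i hi
  obtain ⟨c, hc0, hc⟩ := hi
  refine ⟨c / (m (t j) / w (t j)), div_pos hc0 hA, fun f => ?_⟩
  rw [hc, key f, ← mul_assoc, div_mul_cancel₀ _ hA.ne']

end

end Pool.Agent.F2UL
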