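import Pool.Agent.Lib.MP_305fdd_al.F2.UL.Stm
import Pool.Agent.Lib.MP_305fdd_al.F2.ChMain

/-!
# MP_305fdd_al, F_2 project, section UL: piece flag (the flag at a limit of rational rank one)
-/

set_option autoImplicit false

namespace Pool.Agent.F2UL

open MvPolynomial Pool.Agent.F2Ch Pool.Agent.F2PF Filter Topology

/-- positivity of affine functions near `0` passes to the lexicographic order -/
theorem flag_pos (A B s0 : ℝ) (hs0 : 0 < s0) (h : ∀ s, 0 < s → s < s0 → 0 < A + s * B) :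
    0 < A ∨ (A = 0 ∧ 0 < B) := by
  have h1 : 0 ≤ A := by
    have h2 : Tendsto (fun s : ℝ => A + s * B) (𝓝[>] 0) (𝓝 A) := by
      have h3 : ContinuousAt (fun s : ℝ => A + s * B) 0 := by fun_prop
      have h4 := h3.tendsto
      simp only [zero_mul, add_zero] at h4
      exact h4.mono_left nhdsWithin_le_nhds
    refine ge_of_tendsto h2 ?_
    filter_upwards [Ioo_mem_nhdsGT hs0] with s hs
    exact (h s hs.1 hs.2).le
  rcases h1.lt_or_eq with h2 | h2
  · exact Or.inl h2
  · right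
    refine ⟨h2.symm, ?_⟩
    have h3 := h (s0 / 2) (half_pos hs0) (half_lt_self hs0)
    rw [← h2, zero_add] at h3
    exact pos_of_mul_pos_right h3 (half_pos hs0).le

theorem flag_wt {r : ℕ} (a b : Fin r → ℝ) (n : Fin r → ℤ) :
    wt (fun i => (toLex (a i, b i) : ℝ ×ₗ ℝ)) n = toLex (wt a n, wt b n) := k4_wt_lex a b n

theorem p_flag : S_flag := by
  intro p _ k K I _ _ _ _ _ n t hFG φ U v m hm κ _ _ x ex ac φb N L b s0 y τ hR ⟨e, he0, hene⟩
  have hC := hR.chart
  have hmv := hm.inz.isv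
  -- the lexicographic weight is good
  have hgood : Good N (fun j => (toLex (m (x j), b j) : ℝ ×ₗ ℝ)) := by
    intro n' hn'
    rw [flag_wt, Prod.Lex.lt_iff]
    rcases flag_pos (wt (fun j => m (x j)) n') (wt b n') s0 hR.pos (fun s h1 h2 => by
      have h3 := hR.good s h1 h2 n' hn'
      rwa [k5_lin] at h3) with h3 | ⟨h3, h4⟩
    · exact Or.inl h3
    · exact Or.inr ⟨h3.symm, h4⟩
  obtain ⟨W, hW, hWx⟩ := hC.cell (ℝ ×ₗ ℝ) (fun j => (toLex (m (x j), b j) : ℝ ×ₗ ℝ)) hgood
  have hWv := hW.inz.isv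
  -- the values on `k[t]`
  have hmin : ∀ q : MvPolynomial (Fin n) k, aeval t q ≠ 0 →
      ∃ m0, (L (aeval t q)).coeff m0 ≠ 0 ∧ W (aeval t q) = toLex (wt (fun j => m (x j)) m0, wt b m0) ∧
        m (aeval t q) = wt (fun j => m (x j)) m0 ∧
        ∀ m', (L (aeval t q)).coeff m' ≠ 0 → wt (fun j => m (x j)) m0 < wt (fun j => m (x j)) m' ∨
          (wt (fun j => m (x j)) m0 = wt (fun j => m (x j)) m' ∧ wt b m0 ≤ wt b m') := by
    intro q hq
    obtain ⟨h1, m0, hm0, h2⟩ := hW.min q hq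
    obtain ⟨h3, m1, hm1, h4⟩ := hR.minz q hq
    rw [flag_wt] at h2
    have h5 : ∀ m', (L (aeval t q)).coeff m' ≠ 0 → wt (fun j => m (x j)) m0 < wt (fun j => m (x j)) m' ∨
          (wt (fun j => m (x j)) m0 = wt (fun j => m (x j)) m' ∧ wt b m0 ≤ wt b m') := by
      intro m' hm'
      have h6 := h1 m' hm'
      rw [flag_wt, h2, Prod.Lex.le_iff] at h6
      exact h6
    refine ⟨m0, hm0, h2, le_antisymm (h3 m0 hm0) ?_, h5⟩
    rw [h4]
    rcases h5 m1 hm1 with h6 | ⟨h6, -⟩
    · exact h6.le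
    · exact h6.le
  -- quotients
  have hquot : ∀ f : K, f ≠ 0 → ∃ q1 q2 : MvPolynomial (Fin n) k, aeval t q1 ≠ 0 ∧ aeval t q2 ≠ 0 ∧
      f * aeval t q2 = aeval t q1 := by
    intro f hf
    obtain ⟨a, b', hb', h1⟩ := hFG f
    refine ⟨a, b', ?_, hb', h1⟩
    rw [← h1]
    exact mul_ne_zero hf hb'
  have hfst : ∀ q : MvPolynomial (Fin n) k, aeval t q ≠ 0 →
      (ofLex (W (aeval t q))).1 = m (aeval t q) := by
    intro q hq
    obtain ⟨m0, -, h1, h2, -⟩ := hmin q hq
    rw [h1, h2]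
    rfl
  have hW1 : ∀ f, (ofLex (W f)).1 = m f := by
    intro f
    by_cases hf : f = 0
    · subst hf
      rw [hWv.zero, hmv.zero]
      rfl
    · obtain ⟨q1, q2, h1, h2, h3⟩ := hquot f hf
      have h4 := hWv.mul f _ hf h2
      have h5 := hmv.mul f _ hf h2
      rw [h3] at h4 h5
      have h6 : (ofLex (W (aeval t q1))).1 = (ofLex (W f)).1 + (ofLex (W (aeval t q2))).1 := by
        rw [h4]
        rfl
      rw [hfst q1 h1, hfst q2 h2] at h6
      linarith
  refine ⟨W, hW.inz, hW1, ?_, hW, ?_, ?_⟩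
  · -- second component
    have hx : ∀ j, x j ≠ 0 := hC.vb.ne
    refine ⟨x 0 ^ e 0 * x 1 ^ e 1, mul_ne_zero (zpow_ne_zero _ (hx 0)) (zpow_ne_zero _ (hx 1)), ?_, ?_⟩
    · rw [hmv.mul _ _ (zpow_ne_zero _ (hx 0)) (zpow_ne_zero _ (hx 1)), c3_zpow hmv _ (hx 0),
        c3_zpow hmv _ (hx 1)]
      rw [wt, Fin.sum_univ_two] at he0
      exact he0
    · have h1 : W (x 0 ^ e 0 * x 1 ^ e 1) =
          wt (fun j => (toLex (m (x j), b j) : ℝ ×ₗ ℝ)) e := by
        rw [hWv.mul _ _ (zpow_ne_zero _ (hx 0)) (zpow_ne_zero _ (hx 1)), c3_zpow hWv _ (hx 0),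
          c3_zpow hWv _ (hx 1), hWx, hWx, wt, Fin.sum_univ_two]
      rw [h1, flag_wt]
      change wt b e ≠ 0
      intro h2
      rw [wt, Fin.sum_univ_two] at he0 h2
      simp only [zsmul_eq_mul] at he0 h2
      have hdet := hR.det
      have h3 : ((e 0 : ℤ) : ℝ) * (m (x 0) * b 1 - m (x 1) * b 0) = 0 := by
        linear_combination b 1 * he0 - m (x 1) * h2
      have h4 : ((e 1 : ℤ) : ℝ) * (m (x 0) * b 1 - m (x 1) * b 0) = 0 := by
        linear_combination m (x 0) * h2 - b 0 * he0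
      have h5 : e 0 = 0 := by
        have := (mul_eq_zero.1 h3).resolve_right hdet
        exact_mod_cast this
      have h6 : e 1 = 0 := by
        have := (mul_eq_zero.1 h4).resolve_right hdet
        exact_mod_cast this
      apply hene
      funext i
      fin_cases i
      · exact h5
      · exact h6
  · -- upper bound
    intro q hq s h1 h2
    obtain ⟨m0, hm0, h3, h4, -⟩ := hmin q hq
    have h5 := ((hR.onch s h1 h2).min q hq).1 m0 hm0
    rw [k5_lin] at h5
    rw [h3, h4]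
    exact h5
  · -- equality near zero
    have hnear : ∀ q : MvPolynomial (Fin n) k, aeval t q ≠ 0 → ∃ s1 > 0, ∀ s, 0 < s → s < s1 →
        y s (aeval t q) = m (aeval t q) + s * (ofLex (W (aeval t q))).2 := by
      intro q hq
      obtain ⟨m0, hm0, h3, h4, h5⟩ := hmin q hq
      classical
      obtain ⟨ε1, hε1, h6⟩ := k5_small ((L (aeval t q)).coeff.support.image fun m' =>
        (wt (fun j => m (x j)) m', wt b m'))
        (wt (fun j => m (x j)) m0) (wt b m0) (by
          intro z hz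
          obtain ⟨m', hm', rfl⟩ := Finset.mem_image.1 hz
          exact h5 m' (Finsupp.mem_support_iff.1 hm'))
      refine ⟨min ε1 s0, lt_min hε1 hR.pos, ?_⟩
      intro s hs hs1
      have hs0 : s < s0 := lt_of_lt_of_le hs1 (min_le_right _ _)
      have hsε : s < ε1 := lt_of_lt_of_le hs1 (min_le_left _ _)
      obtain ⟨h7, m1, hm1, h8⟩ := (hR.onch s hs hs0).min q hq
      have h9 : y s (aeval t q) ≤ wt (fun j => m (x j)) m0 + s * wt b m0 := by
        have := h7 m0 hm0
        rwa [k5_lin] at this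
      have h10 : wt (fun j => m (x j)) m0 + s * wt b m0 ≤ y s (aeval t q) := by
        rw [h8, k5_lin]
        exact h6 s hs hsε _ (Finset.mem_image_of_mem _ (Finsupp.mem_support_iff.2 hm1))
      rw [h3, h4]
      exact le_antisymm h9 h10
    intro f hf
    obtain ⟨q1, q2, h1, h2, h3⟩ := hquot f hf
    obtain ⟨s1, hs1, h4⟩ := hnear q1 h1
    obtain ⟨s2, hs2, h5⟩ := hnear q2 h2
    refine ⟨min (min s1 s2) s0, lt_min (lt_min hs1 hs2) hR.pos, ?_⟩
    intro s hs hlt
    have hl0 : s < s0 := lt_of_lt_of_le hlt (min_le_right _ _)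
    have hl1 : s < s1 := lt_of_lt_of_le hlt ((min_le_left _ _).trans (min_le_left _ _))
    have hl2 : s < s2 := lt_of_lt_of_le hlt ((min_le_left _ _).trans (min_le_right _ _))
    have h6 := (hR.onch s hs hl0).inz.isv.mul f _ hf h2
    have h7 := hmv.mul f _ hf h2
    have h8 := hWv.mul f _ hf h2
    rw [h3] at h6 h7 h8
    have h9 : (ofLex (W (aeval t q1))).2 = (ofLex (W f)).2 + (ofLex (W (aeval t q2))).2 := by
      rw [h8]
      rfl
    rw [h4 s hs hl1, h5 s hs hl2, h7, h9] at h6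
    linear_combination -h6

end Pool.Agent.F2UL
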