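import Pool.Agent.Lib.MP_305fdd_al.F2.UL.Stm

/-!
# MP_305fdd_al, F_2 project, section UL, piece line
-/

set_option autoImplicit false

namespace Pool.Agent.F2UL

open MvPolynomial Pool.Agent.F2Ch Pool.Agent.F2PF Filter Topology

theorem p_line_wt {r : ℕ} (a b : Fin r → ℝ) (s : ℝ) (e : Fin r → ℤ) :
    wt (fun j => a j + s * b j) e = wt a e + s * wt b e := by
  unfold wt
  rw [Finset.mul_sum, ← Finset.sum_add_distrib]
  refine Finset.sum_congr rfl fun i _ => ?_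
  simp only [zsmul_eq_mul]
  ring

theorem p_line_gen {p : ℕ} {k K κ : Type} [Field k] [Field K] [Algebra k K] [Field κ] {n : ℕ}
    (t : Fin n → K) (φ : K → K) (x : Fin 2 → K) (L : K → AddMonoidAlgebra κ (Fin 2 → ℤ))
    (a b : Fin 2 → ℝ) (J : Set ℝ) (z : ℝ → K → ℝ) (hx : ∀ j, x j ≠ 0)
    (hdet : a 0 * b 1 - a 1 * b 0 ≠ 0) (hJ : J.Nonempty)
    (hon : ∀ s ∈ J, OnCh k p φ t L (fun j => a j + s * b j) (z s))
    (hxv : ∀ s ∈ J, ∀ j, z s (x j) = a j + s * b j) :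
    ∃ M : K → Finset (ℝ × ℝ),
      Line {f : K | ∃ q : MvPolynomial (Fin n) k, aeval t q = f} J z M := by
  classical
  refine ⟨fun f => (L f).coeff.support.image fun e => (wt a e, wt b e), ?_, ?_, ?_, ?_, ?_⟩
  · intro s hs
    exact (hon s hs).inz.isv
  · rintro f ⟨q, rfl⟩ hf
    obtain ⟨s, hs⟩ := hJ
    obtain ⟨-, e, he, -⟩ := (hon s hs).min q hf
    exact ⟨_, Finset.mem_image_of_mem _ (Finsupp.mem_support_iff.2 he)⟩
  · rintro f ⟨q, rfl⟩ hf s hs e he
    obtain ⟨e', he', rfl⟩ := Finset.mem_image.1 he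
    have h := ((hon s hs).min q hf).1 e' (Finsupp.mem_support_iff.1 he')
    rw [p_line_wt] at h
    exact h
  · rintro f ⟨q, rfl⟩ hf s hs
    obtain ⟨-, e, he, h⟩ := (hon s hs).min q hf
    refine ⟨_, Finset.mem_image_of_mem _ (Finsupp.mem_support_iff.2 he), ?_⟩
    rw [h, p_line_wt]
  · refine ⟨x 0, x 1, (a 0, b 0), (a 1, b 1), hx 0, hx 1, ?_, fun s hs => ⟨hxv s hs 0, hxv s hs 1⟩⟩
    intro h
    apply hdet
    linarith

theorem p_line : S_line := by
  intro p _ k K I _ _ _ _ _ n t φ U v m hlim κ _ _ x ex ac φb N L b s0 y τ hrun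
  refine p_line_gen (p := p) t φ x L (fun j => m (x j)) b _ y hrun.chart.vb.ne hrun.det
    ⟨0, le_rfl, hrun.pos⟩ ?_ ?_
  · rintro s ⟨hs0, hs1⟩
    rcases eq_or_lt_of_le hs0 with h | h
    · subst h
      have h0 : (fun j => m (x j) + 0 * b j) = fun j => m (x j) := by
        funext j
        ring
      rw [h0, hrun.zero]
      exact ⟨hlim.inz, hrun.minz⟩
    · exact hrun.onch s h hs1
  · rintro s ⟨hs0, hs1⟩ j
    rcases eq_or_lt_of_le hs0 with h | h
    · subst h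
      rw [hrun.zero]
      ring
    · exact hrun.xv s h hs1 j

end Pool.Agent.F2UL
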