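import Pool.Agent.Lib.MP_305fdd_al.F2.UL.Stm
import Pool.Agent.Lib.MP_305fdd_al.F2.UL.p_line

/-!
# MP_305fdd_al, F_2 project, section UL, piece irr
-/

set_option autoImplicit false

namespace Pool.Agent.F2UL

open MvPolynomial Pool.Agent.F2Ch Pool.Agent.F2PF Filter Topology

theorem p_irr : S_irr := by
  classical
  intro p _ k K I _ _ _ _ _ n t hfr φ U v m hlim κ _ _ x ex ac φb N L b s0 y τ hrun hrat
  -- the exponents in `N` are positive at `a`
  have hpos : ∀ e ∈ N, 0 < wt (fun j => m (x j)) e := by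
    intro e he
    have h1 : ∀ s, 0 < s → s < s0 → 0 < wt (fun j => m (x j)) e + s * wt b e := by
      intro s hs hs0
      have h := hrun.good s hs hs0 e he
      rwa [p_line_wt] at h
    have h0 : 0 ≤ wt (fun j => m (x j)) e := by
      by_contra hneg
      push Not at hneg
      have hB : 0 < |wt b e| + 1 := by positivity
      set A := wt (fun j => m (x j)) e with hA
      have hs : 0 < min (s0 / 2) (-A / (|wt b e| + 1)) :=
        lt_min (by linarith [hrun.pos]) (div_pos (by linarith) hB)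
      have h2 := h1 _ hs (lt_of_le_of_lt (min_le_left _ _) (by linarith [hrun.pos]))
      have h3 : min (s0 / 2) (-A / (|wt b e| + 1)) * wt b e ≤
          min (s0 / 2) (-A / (|wt b e| + 1)) * (|wt b e| + 1) :=
        mul_le_mul_of_nonneg_left (by linarith [le_abs_self (wt b e)]) hs.le
      have h4 : min (s0 / 2) (-A / (|wt b e| + 1)) * (|wt b e| + 1) ≤ -A := by
        calc _ ≤ (-A / (|wt b e| + 1)) * (|wt b e| + 1) :=
              mul_le_mul_of_nonneg_right (min_le_right _ _) hB.le
          _ = -A := by field_simp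
      linarith
    rcases eq_or_lt_of_le h0 with h | h
    · exfalso
      have he0 := hrat e h.symm
      have h2 := h1 (s0 / 2) (by linarith [hrun.pos]) (by linarith [hrun.pos])
      rw [he0] at h2
      simp [wt] at h2
    · exact h
  have hev : ∀ᶠ s in 𝓝 (0 : ℝ), ∀ e ∈ N, 0 < wt (fun j => m (x j)) e + s * wt b e := by
    rw [Filter.eventually_all_finite hrun.chart.fin]
    intro e he
    have hc : Tendsto (fun s : ℝ => wt (fun j => m (x j)) e + s * wt b e) (𝓝 0)
        (𝓝 (wt (fun j => m (x j)) e + 0 * wt b e)) := by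
      apply Continuous.tendsto
      fun_prop
    rw [zero_mul, add_zero] at hc
    exact hc.eventually (lt_mem_nhds (hpos e he))
  obtain ⟨ε, hε, hball⟩ := Metric.eventually_nhds_iff.1 hev
  have hs1 : 0 < min ε s0 := lt_min hε hrun.pos
  have hgood : ∀ s, -(min ε s0) < s → s < min ε s0 → Good N (fun j => m (x j) + s * b j) := by
    intro s h1 h2 e he
    rw [p_line_wt]
    apply hball _ e he
    rw [Real.dist_eq, sub_zero, abs_lt]
    exact ⟨by linarith [min_le_left ε s0], by linarith [min_le_left ε s0]⟩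
  have hex : ∀ s : ℝ, ∃ w : K → ℝ, (0 ≤ s → s < min ε s0 → w = y s) ∧
      (-(min ε s0) < s → s < min ε s0 → OnCh k p φ t L (fun j => m (x j) + s * b j) w ∧
        ∀ j, w (x j) = m (x j) + s * b j) := by
    intro s
    rcases lt_trichotomy s 0 with h | h | h
    · by_cases hs : -(min ε s0) < s
      · obtain ⟨w, hw1, hw2⟩ := hrun.chart.cell ℝ (fun j => m (x j) + s * b j)
          (hgood s hs (by linarith))
        exact ⟨w, fun h0 => absurd h0 (not_le.2 h), fun _ _ => ⟨hw1, hw2⟩⟩
      · exact ⟨y s, fun h0 => absurd h0 (not_le.2 h), fun h0 => absurd h0 hs⟩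
    · refine ⟨y s, fun _ _ => rfl, fun _ _ => ?_⟩
      subst h
      have h0 : (fun j => m (x j) + 0 * b j) = fun j => m (x j) := by
        funext j
        ring
      rw [h0, hrun.zero]
      exact ⟨⟨hlim.inz, hrun.minz⟩, fun j => by ring⟩
    · refine ⟨y s, fun _ _ => rfl, fun _ h1 => ?_⟩
      have h2 : s < s0 := lt_of_lt_of_le h1 (min_le_right _ _)
      exact ⟨hrun.onch s h h2, hrun.xv s h h2⟩
  choose z hz1 hz2 using hex
  obtain ⟨M, hM⟩ := p_line_gen (p := p) t φ x L (fun j => m (x j)) b (Set.Ioo (-(min ε s0)) (min ε s0))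
    z hrun.chart.vb.ne hrun.det ⟨0, by simpa using hs1, hs1⟩
    (fun s hs => (hz2 s hs.1 hs.2).1) (fun s hs => (hz2 s hs.1 hs.2).2)
  exact ⟨min ε s0, z, M, hs1, min_le_right _ _, hz1,
    fun s h1 h2 => ⟨hgood s h1 h2, (hz2 s h1 h2).1, (hz2 s h1 h2).2⟩, hM⟩

end Pool.Agent.F2UL
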